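import Pool.Agent.H20.SW.ZetaLower

/-!
All derivatives of `-ζ'/ζ - ζ` and `-L'/L` to the right of the line `Re s = 1`.
-/

set_option autoImplicit false

namespace Pool.Agent.SW

open Complex Finset Filter Topology Metric LSeries
open ArithmeticFunction (vonMangoldt vonMangoldt_nonneg)

/-! ### discs -/

lemma disc_logDeriv {f : ℂ → ℂ} (hf : Differentiable ℂ f) {s₀ : ℂ} {ρ B : ℝ} (hρ : 0 < ρ)
    (hB0 : 0 < B) (hB : ∀ w ∈ closedBall s₀ ρ, ‖deriv f w‖ ≤ B) (h : 2 * B * ρ ≤ ‖f s₀‖) :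
    ∀ w ∈ closedBall s₀ ρ, f w ≠ 0 ∧ ‖deriv f w / f w‖ ≤ 1 / ρ := by
  intro w hw
  have h1 := (convex_closedBall s₀ ρ).norm_image_sub_le_of_norm_deriv_le (f := f) (C := B)
    (fun z _ => hf z) hB hw (mem_closedBall_self hρ.le)
  have h2 : ‖s₀ - w‖ ≤ ρ := by rwa [mem_closedBall', dist_eq_norm] at hw
  have h3 : ‖f s₀‖ ≤ ‖f s₀ - f w‖ + ‖f w‖ := by
    have := norm_add_le (f s₀ - f w) (f w)
    rwa [sub_add_cancel] at this
  have h4 : B * ‖s₀ - w‖ ≤ B * ρ := by gcongr
  have h5 : B * ρ ≤ ‖f w‖ := by linarith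
  have h6 : 0 < B * ρ := by positivity
  have h7 : 0 < ‖f w‖ := by linarith
  refine ⟨norm_pos_iff.1 h7, ?_⟩
  rw [norm_div, div_le_div_iff₀ h7 hρ, one_mul]
  have := hB w hw
  nlinarith

lemma iter_bound {F : ℂ → ℂ} {s₀ s : ℂ} {ρ M : ℝ} (hρ : 0 < ρ)
    (hF : ∀ w ∈ closedBall s₀ ρ, DifferentiableAt ℂ F w)
    (hM : ∀ w ∈ closedBall s₀ ρ, ‖F w‖ ≤ M) (hs : dist s s₀ ≤ ρ / 2) (k : ℕ) :
    ‖iteratedDeriv k F s‖ ≤ k.factorial * M / (ρ / 2) ^ k := by
  have hsub : closedBall s (ρ / 2) ⊆ closedBall s₀ ρ := by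
    apply closedBall_subset_closedBall'
    linarith
  refine Complex.norm_iteratedDeriv_le_of_forall_mem_sphere_norm_le k (by positivity) ?_ ?_
  · refine DifferentiableOn.diffContOnCl fun w hw => ?_
    exact (hF w (hsub (closure_ball_subset_closedBall hw))).differentiableWithinAt
  · intro z hz
    exact hM z (hsub (sphere_subset_closedBall hz))

/-! ### the far region -/

lemma tsum_norm_term_eq {g : ℕ → ℝ} (hg : ∀ n, 0 ≤ g n) (σ : ℝ) :
    (((∑' n, ‖LSeries.term (fun n => (g n : ℂ)) (σ : ℂ) n‖) : ℝ) : ℂ) =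
      LSeries (fun n => (g n : ℂ)) (σ : ℂ) := by
  rw [LSeries, Complex.ofReal_tsum]
  refine tsum_congr fun n => ?_
  rw [LSeries.norm_term_eq]
  rcases eq_or_ne n 0 with rfl | hn
  · simp
  · rw [if_neg hn, LSeries.term_of_ne_zero hn, ofReal_re, Complex.norm_real,
      Real.norm_of_nonneg (hg n), ofReal_div, Complex.ofReal_cpow (Nat.cast_nonneg n)]
    simp

lemma LSeries_vonMangoldt_eq' {s : ℂ} (hs : 1 < s.re) :
    LSeries (fun n => ((vonMangoldt n : ℝ) : ℂ)) s =
      (s - 1)⁻¹ - deriv riemannZeta₁ s / riemannZeta₁ s := by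
  have hs1 : s ≠ 1 := by intro h; rw [h, one_re] at hs; exact lt_irrefl _ hs
  rw [ArithmeticFunction.LSeries_vonMangoldt_eq_deriv_riemannZeta_div hs,
    deriv_riemannZeta_eq_neg_inv_sub_sq_mul_add hs1, riemannZeta_eq_inv_sub_mul hs1]
  have h1 := zeta₁_ne_zero hs.le
  have h2 := sub_ne_zero.2 hs1
  field_simp
  ring

lemma norm_LSeries_vonMangoldt_real : ∃ C : ℝ, 0 < C ∧ ∀ x : ℝ, 0 < x → x ≤ 1 →
    ‖LSeries (fun n => ((vonMangoldt n : ℝ) : ℂ)) ((1 + x : ℝ) : ℂ)‖ ≤ C / x := by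
  obtain ⟨C, hC⟩ := rect_compact.exists_bound_of_continuousOn
    (f := fun s => deriv riemannZeta₁ s / riemannZeta₁ s) (by
      refine ContinuousOn.div ?_ ?_ fun s hs => zeta₁_ne_zero hs.1.1
      · exact (differentiable_riemannZeta₁.deriv).continuous.continuousOn
      · exact differentiable_riemannZeta₁.continuous.continuousOn)
  have hC0 : 0 ≤ C := (norm_nonneg _).trans (hC 1 (by simp [rect]))
  refine ⟨1 + C, by linarith, fun x hx0 hx1 => ?_⟩
  rw [LSeries_vonMangoldt_eq' (by rw [ofReal_re]; linarith)]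
  have h1 := hC ((1 + x : ℝ) : ℂ) (by
    simp only [rect, Set.mem_setOf_eq, ofReal_re, ofReal_im]
    refine ⟨⟨by linarith, by linarith⟩, by norm_num, by norm_num⟩)
  have h3 : ‖(((1 + x : ℝ) : ℂ) - 1)⁻¹‖ = 1 / x := by
    have : (((1 + x : ℝ) : ℂ) - 1) = (x : ℂ) := by push_cast; ring
    rw [this, norm_inv, Complex.norm_real, Real.norm_of_nonneg hx0.le, one_div]
  refine (norm_sub_le _ _).trans ?_
  rw [h3]
  have h4 : C ≤ C / x := by
    rw [le_div_iff₀ hx0]; nlinarith
  calc _ ≤ 1 / x + C / x := by linarith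
    _ = (1 + C) / x := by ring

lemma sum_vonMangoldt_add_one : ∃ C : ℝ, 0 < C ∧ ∀ x : ℝ, 0 < x → x ≤ 1 →
    Summable (fun n : ℕ => ‖LSeries.term (fun n => ((vonMangoldt n + 1 : ℝ) : ℂ))
      ((1 + x : ℝ) : ℂ) n‖) ∧
    ∑' n : ℕ, ‖LSeries.term (fun n => ((vonMangoldt n + 1 : ℝ) : ℂ)) ((1 + x : ℝ) : ℂ) n‖ ≤
      C / x := by
  obtain ⟨C, hC, h⟩ := norm_LSeries_vonMangoldt_real
  refine ⟨C + 49, by linarith, fun x hx0 hx1 => ?_⟩
  have hre : 1 < ((1 + x : ℝ) : ℂ).re := by rw [ofReal_re]; linarith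
  have hs1 : LSeriesSummable (fun n => ((vonMangoldt n : ℝ) : ℂ)) ((1 + x : ℝ) : ℂ) :=
    ArithmeticFunction.LSeriesSummable_vonMangoldt hre
  have hs2 : LSeriesSummable (1 : ℕ → ℂ) ((1 + x : ℝ) : ℂ) := LSeriesSummable_one_iff.mpr hre
  have heq : (fun n : ℕ => ((vonMangoldt n + 1 : ℝ) : ℂ)) =
      (fun n => ((vonMangoldt n : ℝ) : ℂ)) + (1 : ℕ → ℂ) := by
    funext n
    simp
  have hs3 : LSeriesSummable (fun n : ℕ => ((vonMangoldt n + 1 : ℝ) : ℂ)) ((1 + x : ℝ) : ℂ) := by
    rw [heq]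
    exact hs1.add hs2
  refine ⟨hs3.norm, ?_⟩
  have h1 := tsum_norm_term_eq (g := fun n => vonMangoldt n + 1)
    (fun n => by have := vonMangoldt_nonneg (n := n); linarith) (1 + x)
  have h2 : ‖LSeries (fun n : ℕ => ((vonMangoldt n + 1 : ℝ) : ℂ)) ((1 + x : ℝ) : ℂ)‖ ≤
      (C + 49) / x := by
    rw [heq, LSeries_add hs1 hs2, LSeries_one_eq_riemannZeta hre]
    refine (norm_add_le _ _).trans ?_
    rw [add_div]
    exact add_le_add (h x hx0 hx1) (norm_zeta_real_le hx0 hx1)
  rw [← h1, Complex.norm_real, Real.norm_of_nonneg (tsum_nonneg fun _ => norm_nonneg _)] at h2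
  exact h2

/-- the trivial bound away from the line `Re s = 1` -/
theorem far_bound (k : ℕ) : ∃ C : ℝ, 0 < C ∧ ∀ f : ℕ → ℂ,
    (∀ n : ℕ, ‖f n‖ ≤ (vonMangoldt n + 1) * Real.log n ^ k) → ∀ s : ℂ, 1 < s.re → s.re ≤ 2 →
    ‖LSeries f s‖ ≤ C / (s.re - 1) ^ (k + 1) := by
  obtain ⟨C, hC, h⟩ := sum_vonMangoldt_add_one
  refine ⟨k.factorial * 2 ^ (k + 1) * C, by positivity, fun f hf s hs hs2 => ?_⟩
  set x : ℝ := (s.re - 1) / 2 with hx
  have hx0 : 0 < x := by rw [hx]; linarith
  have hx1 : x ≤ 1 := by rw [hx]; linarith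
  obtain ⟨hsum, hle⟩ := h x hx0 hx1
  have hterm : ∀ n : ℕ, ‖LSeries.term f s n‖ ≤ (k.factorial / x ^ k) *
      ‖LSeries.term (fun n => ((vonMangoldt n + 1 : ℝ) : ℂ)) ((1 + x : ℝ) : ℂ) n‖ := by
    intro n
    rcases eq_or_ne n 0 with rfl | hn
    · simp
    have hn1 : (1 : ℝ) ≤ n := by exact_mod_cast Nat.one_le_iff_ne_zero.2 hn
    have hn0 : (0 : ℝ) < n := by linarith
    have hL := vonMangoldt_nonneg (n := n)
    rw [LSeries.norm_term_eq, LSeries.norm_term_eq, if_neg hn, if_neg hn, ofReal_re,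
      Complex.norm_real, Real.norm_of_nonneg (by linarith : (0 : ℝ) ≤ vonMangoldt n + 1)]
    have hlog : Real.log n ^ k ≤ (k.factorial / x ^ k) * (n : ℝ) ^ x := by
      have h1 := Real.pow_div_factorial_le_exp (x := x * Real.log n)
        (mul_nonneg hx0.le (Real.log_nonneg hn1)) k
      have h2 : Real.exp (x * Real.log n) = (n : ℝ) ^ x := by
        rw [Real.rpow_def_of_pos hn0, mul_comm]
      rw [h2, mul_pow, div_le_iff₀ (by positivity)] at h1
      rw [div_mul_eq_mul_div, le_div_iff₀ (by positivity)]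
      linarith
    have hpow : (n : ℝ) ^ s.re = (n : ℝ) ^ x * (n : ℝ) ^ (1 + x) := by
      rw [← Real.rpow_add hn0]
      congr 1
      rw [hx]; ring
    have hx' : 0 < (n : ℝ) ^ x := Real.rpow_pos_of_pos hn0 _
    have hx'' : 0 < (n : ℝ) ^ (1 + x) := Real.rpow_pos_of_pos hn0 _
    rw [hpow, div_le_iff₀ (by positivity)]
    calc ‖f n‖ ≤ (vonMangoldt n + 1) * Real.log n ^ k := hf n
      _ ≤ (vonMangoldt n + 1) * ((k.factorial / x ^ k) * (n : ℝ) ^ x) := by gcongr
      _ = _ := by field_simp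
  have h1 : ‖LSeries f s‖ ≤ (k.factorial / x ^ k) *
      ∑' n : ℕ, ‖LSeries.term (fun n => ((vonMangoldt n + 1 : ℝ) : ℂ)) ((1 + x : ℝ) : ℂ) n‖ :=
    tsum_of_norm_bounded (hsum.hasSum.mul_left _) hterm
  refine h1.trans ?_
  calc (k.factorial / x ^ k) *
      ∑' n : ℕ, ‖LSeries.term (fun n => ((vonMangoldt n + 1 : ℝ) : ℂ)) ((1 + x : ℝ) : ℂ) n‖ ≤
      (k.factorial / x ^ k) * (C / x) := by gcongr
    _ = k.factorial * C / x ^ (k + 1) := by
      rw [pow_succ]
      field_simp
    _ = k.factorial * 2 ^ (k + 1) * C / (s.re - 1) ^ (k + 1) := by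
      rw [hx, div_pow]
      have : s.re - 1 ≠ 0 := by linarith
      field_simp

/-! ### derivatives of `L`-series -/

lemma logMul_iter (f : ℕ → ℂ) (k n : ℕ) :
    LSeries.logMul^[k] f n = (Real.log n : ℂ) ^ k * f n := by
  induction k generalizing f with
  | zero => simp
  | succ k ih =>
    rw [Function.iterate_succ_apply, ih, LSeries.logMul, Complex.natCast_log]
    ring

lemma LSeries_log_pow_eq {g : ℕ → ℂ} (hg : ∀ s : ℂ, 1 < s.re → LSeriesSummable g s) {F : ℂ → ℂ}
    (hF : ∀ s : ℂ, 1 < s.re → LSeries g s = F s) (k : ℕ) {s : ℂ} (hs : 1 < s.re) :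
    ‖LSeries (fun n : ℕ => g n * ((Real.log n ^ k : ℝ) : ℂ)) s‖ = ‖iteratedDeriv k F s‖ := by
  have habs : abscissaOfAbsConv g ≤ 1 := by
    have := LSeries.abscissaOfAbsConv_le_of_forall_lt_LSeriesSummable (f := g) (x := 1)
      (fun y hy => hg y (by simpa using hy))
    simpa using this
  have habs' : abscissaOfAbsConv g < s.re := lt_of_le_of_lt habs (by exact_mod_cast hs)
  have h1 := LSeries_iteratedDeriv k habs'
  have h2 : LSeries g =ᶠ[𝓝 s] F := by
    filter_upwards [(isOpen_re_gt 1).mem_nhds (show s ∈ {s : ℂ | 1 < s.re} from hs)] with w hw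
    exact hF w hw
  have h3 : iteratedDeriv k (LSeries g) s = iteratedDeriv k F s := h2.iteratedDeriv_eq k
  rw [h3] at h1
  rw [h1, norm_mul, norm_pow, norm_neg, norm_one, one_pow, one_mul]
  congr 1
  refine LSeries_congr (fun {n} _ => ?_) s
  rw [logMul_iter]
  push_cast
  ring

/-! ### the two main bounds -/

lemma near_or_far {ρ x : ℝ} (hρ : 0 < ρ) {C : ℝ} (hC : 0 < C) (k : ℕ) (hx : ρ / 2 ≤ x) :
    C / x ^ (k + 1) ≤ (C * 2 ^ (k + 1)) * (1 / ρ) ^ (k + 1) := by
  have h1 : C / x ^ (k + 1) ≤ C / (ρ / 2) ^ (k + 1) := by gcongr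
  refine h1.trans (le_of_eq ?_)
  rw [div_pow, div_pow, one_pow]
  field_simp

/-- (X) -/
theorem char_F (k : ℕ) : ∃ C : ℝ, ∀ (d : ℕ) [NeZero d] (χ : DirichletCharacter ℂ d), χ ≠ 1 →
    ∀ s : ℂ, 1 < s.re → s.re ≤ 2 →
    ‖LSeries (fun n : ℕ => χ n * ((ArithmeticFunction.vonMangoldt n * Real.log n ^ k : ℝ) : ℂ)) s‖ ≤
      C * ((d : ℝ) * Real.log (d * (|s.im| + 3)) ^ 12) ^ (k + 1) := by
  obtain ⟨C, hC, hfar⟩ := far_bound k
  obtain ⟨K, hK, hlow⟩ := LFunction_lower
  refine ⟨(C * 2 ^ (k + 1) + k.factorial * 2 ^ k) * (3072 * K) ^ (k + 1), ?_⟩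
  intro d _ χ hχ s hs hs2
  set y := s.im with hy
  have hq := one_le_q (q := d)
  have hl := one_le_lg hq y
  set l := lg d y with hldef
  have hlog : Real.log (d * (|y| + 3)) = l := rfl
  rw [hlog]
  have hl2 : 1 ≤ l ^ 2 := one_le_pow₀ hl
  have hl9 : 1 ≤ l ^ 9 := one_le_pow₀ hl
  set ρ : ℝ := 1 / (3072 * K * d * l ^ 11) with hρ
  have hρ0 : 0 < ρ := by positivity
  have hρinv : 1 / ρ = 3072 * K * (d * l ^ 11) := by
    rw [hρ, one_div_one_div]; ring
  -- it suffices to bound by `(1/ρ)^(k+1)`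
  have hfin : (C * 2 ^ (k + 1) + k.factorial * 2 ^ k) * (1 / ρ) ^ (k + 1) ≤
      (C * 2 ^ (k + 1) + k.factorial * 2 ^ k) * (3072 * K) ^ (k + 1) *
        ((d : ℝ) * l ^ 12) ^ (k + 1) := by
    rw [hρinv, mul_pow, mul_assoc]
    gcongr
    norm_num
  refine le_trans ?_ hfin
  have hkf : (0 : ℝ) ≤ k.factorial * 2 ^ k * (1 / ρ) ^ (k + 1) := by positivity
  have hCf : (0 : ℝ) ≤ C * 2 ^ (k + 1) * (1 / ρ) ^ (k + 1) := by positivity
  rw [add_mul]
  rcases le_total (s.re - 1) (ρ / 2) with hcase | hcase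
  · -- near the line
    have hρ16 : ρ ≤ 1 / (16 * l) := by
      rw [hρ]
      apply one_div_le_one_div_of_le (by positivity)
      calc 16 * l = 16 * 1 * 1 * (l * 1) := by ring
        _ ≤ 3072 * K * d * (l * l ^ 10) := by
          have : 1 ≤ l ^ 10 := one_le_pow₀ hl
          gcongr
          norm_num
        _ = _ := by ring
    set s₀ : ℂ := 1 + I * y with hs₀
    have hball : ∀ w ∈ closedBall s₀ ρ, ‖deriv (DirichletCharacter.LFunction χ) w‖ ≤
        1536 * l ^ 2 := by
      intro w hw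
      rw [mem_closedBall, dist_eq_norm] at hw
      have hre : |w.re - 1| ≤ ρ := by
        have := (Complex.abs_re_le_norm (w - s₀)).trans hw
        simpa [hs₀] using this
      have him : |w.im - y| ≤ ρ := by
        have := (Complex.abs_im_le_norm (w - s₀)).trans hw
        simpa [hs₀] using this
      have h16 : 1 / (16 * l) ≤ 1 / 16 := by
        apply one_div_le_one_div_of_le (by norm_num); linarith
      have him' : |w.im| ≤ |y| + 1 := by
        have := abs_sub_abs_le_abs_sub w.im y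
        linarith
      have hlw := lg_le_two_mul hq him'
      have hlw1 := one_le_lg hq w.im
      have h8 : 1 / (16 * l) ≤ 1 / (8 * lg d w.im) := by
        apply one_div_le_one_div_of_le (by linarith); linarith
      have hre' := abs_le.1 hre
      refine (norm_deriv_LFunction_le χ hχ (by linarith) (by linarith)).trans ?_
      calc 384 * lg d w.im ^ 2 ≤ 384 * (2 * l) ^ 2 := by gcongr
        _ = 1536 * l ^ 2 := by ring
    have hbig : 2 * (1536 * l ^ 2) * ρ ≤ ‖DirichletCharacter.LFunction χ s₀‖ := by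
      refine le_trans (le_of_eq ?_) (hlow d χ hχ y)
      rw [hρ, ← hldef]
      field_simp
      norm_num
    have hdisc := disc_logDeriv (DirichletCharacter.differentiable_LFunction hχ) hρ0
      (by positivity) hball hbig
    have hds : dist s s₀ ≤ ρ / 2 := by
      rw [dist_eq_norm]
      have h1 : s - s₀ = ((s.re - 1 : ℝ) : ℂ) := by
        apply Complex.ext <;> simp [hs₀, hy]
      rw [h1, Complex.norm_real, Real.norm_of_nonneg (by linarith)]
      exact hcase
    have hit := iter_bound (F := fun w => -deriv (DirichletCharacter.LFunction χ) w /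
      DirichletCharacter.LFunction χ w) (M := 1 / ρ) hρ0 (fun w hw => by
        have hd := DirichletCharacter.differentiable_LFunction hχ
        exact (hd.deriv w).neg.div (hd w) (hdisc w hw).1) (fun w hw => by
        rw [neg_div, norm_neg]
        exact (hdisc w hw).2) hds k
    have heq : ‖LSeries (fun n : ℕ => χ n * ((vonMangoldt n * Real.log n ^ k : ℝ) : ℂ)) s‖ =
        ‖iteratedDeriv k (fun w => -deriv (DirichletCharacter.LFunction χ) w /
          DirichletCharacter.LFunction χ w) s‖ := by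
      rw [← LSeries_log_pow_eq (g := (fun n : ℕ => χ (n : ZMod d)) *
        (fun n : ℕ => ((vonMangoldt n : ℝ) : ℂ)))
        (fun s hs => DirichletCharacter.LSeriesSummable_twist_vonMangoldt χ hs) (fun s hs => ?_) k hs]
      · congr 1
        refine LSeries_congr (fun {n} _ => ?_) s
        simp only [Pi.mul_apply]
        push_cast
        ring
      · rw [DirichletCharacter.LSeries_twist_vonMangoldt_eq χ hs,
          DirichletCharacter.LFunction_eq_LSeries χ hs]
        congr 2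
        refine Filter.EventuallyEq.deriv_eq ?_
        filter_upwards [(isOpen_re_gt 1).mem_nhds (show s ∈ {s : ℂ | 1 < s.re} from hs)]
          with w hw
        exact (DirichletCharacter.LFunction_eq_LSeries χ hw).symm
    rw [heq]
    refine hit.trans (le_trans (le_of_eq ?_) (le_add_of_nonneg_left hCf))
    rw [pow_succ, div_pow, one_div, inv_pow]
    field_simp
  · -- away from the line
    have h1 := hfar (fun n : ℕ => χ n * ((vonMangoldt n * Real.log n ^ k : ℝ) : ℂ))
      (fun n => ?_) s hs hs2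
    · refine h1.trans ((near_or_far hρ0 hC k hcase).trans (le_add_of_nonneg_right hkf))
    · have hL := vonMangoldt_nonneg (n := n)
      have hlogn : 0 ≤ Real.log (n : ℝ) := Real.log_natCast_nonneg n
      rw [norm_mul, Complex.norm_real, Real.norm_of_nonneg (by positivity)]
      have h2 := χ.norm_le_one (n : ZMod d)
      have h3 : 0 ≤ vonMangoldt n * Real.log n ^ k := by positivity
      have h4 : 0 ≤ Real.log (n : ℝ) ^ k := by positivity
      nlinarith

/-- (Z) -/
theorem zeta_F (k : ℕ) : ∃ C : ℝ, ∀ s : ℂ, 1 < s.re → s.re ≤ 2 →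
    ‖LSeries (fun n : ℕ => (((ArithmeticFunction.vonMangoldt n - 1) * Real.log n ^ k : ℝ) : ℂ)) s‖ ≤
      C * Real.log (|s.im| + 3) ^ (12 * (k + 1)) := by
  obtain ⟨C, hC, hfar⟩ := far_bound k
  obtain ⟨K, hK, hlow⟩ := zeta₁_lower
  refine ⟨(C * 2 ^ (k + 1) + 2 * (k.factorial * 2 ^ k)) * (6528 * K) ^ (k + 1), ?_⟩
  intro s hs hs2
  set y := s.im with hy
  have hq : (1 : ℝ) ≤ 1 := le_refl _
  have hl := one_le_lg hq y
  set l := lg 1 y with hldef
  have hlog : Real.log (|y| + 3) = l := by rw [hldef]; unfold lg; rw [one_mul]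
  rw [hlog, pow_mul]
  have hl2 : 1 ≤ l ^ 2 := one_le_pow₀ hl
  have hl8 : 1 ≤ l ^ 8 := one_le_pow₀ hl
  have hl9 : 1 ≤ l ^ 9 := one_le_pow₀ hl
  have ht : (0 : ℝ) ≤ |y| := abs_nonneg _
  set ρ : ℝ := 1 / (6528 * K * l ^ 9) with hρ
  have hρ0 : 0 < ρ := by positivity
  have hρinv : 1 / ρ = 6528 * K * l ^ 9 := by
    rw [hρ, one_div_one_div]
  -- it suffices to bound by `(1/ρ)^(k+1)`
  have hfin : (C * 2 ^ (k + 1) + 2 * (k.factorial * 2 ^ k)) * (1 / ρ) ^ (k + 1) ≤
      (C * 2 ^ (k + 1) + 2 * (k.factorial * 2 ^ k)) * (6528 * K) ^ (k + 1) *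
        (l ^ 12) ^ (k + 1) := by
    rw [hρinv, mul_pow, mul_assoc]
    gcongr
    norm_num
  refine le_trans ?_ hfin
  have hkf : (0 : ℝ) ≤ 2 * (k.factorial * 2 ^ k) * (1 / ρ) ^ (k + 1) := by positivity
  have hCf : (0 : ℝ) ≤ C * 2 ^ (k + 1) * (1 / ρ) ^ (k + 1) := by positivity
  rw [add_mul]
  rcases le_total (s.re - 1) (ρ / 2) with hcase | hcase
  · -- near the line
    have hρ16 : ρ ≤ 1 / (16 * l) := by
      rw [hρ]
      apply one_div_le_one_div_of_le (by positivity)
      calc 16 * l = 16 * 1 * (l * 1) := by ring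
        _ ≤ 6528 * K * (l * l ^ 8) := by
          gcongr
          norm_num
        _ = _ := by ring
    set s₀ : ℂ := 1 + I * y with hs₀
    have hw : ∀ w ∈ closedBall s₀ ρ, 1 - 1 / (8 * lg 1 w.im) ≤ w.re ∧ w.re ≤ 2 ∧
        |w.im| ≤ |y| + 1 ∧ lg 1 w.im ≤ 2 * l ∧ 1 ≤ lg 1 w.im := by
      intro w hw
      rw [mem_closedBall, dist_eq_norm] at hw
      have hre : |w.re - 1| ≤ ρ := by
        have := (Complex.abs_re_le_norm (w - s₀)).trans hw
        simpa [hs₀] using this
      have him : |w.im - y| ≤ ρ := by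
        have := (Complex.abs_im_le_norm (w - s₀)).trans hw
        simpa [hs₀] using this
      have h16 : 1 / (16 * l) ≤ 1 / 16 := by
        apply one_div_le_one_div_of_le (by norm_num); linarith
      have him' : |w.im| ≤ |y| + 1 := by
        have := abs_sub_abs_le_abs_sub w.im y
        linarith
      have hlw := lg_le_two_mul hq him'
      have hlw1 := one_le_lg hq w.im
      have h8 : 1 / (16 * l) ≤ 1 / (8 * lg 1 w.im) := by
        apply one_div_le_one_div_of_le (by linarith); linarith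
      have hre' := abs_le.1 hre
      exact ⟨by linarith, by linarith, him', hlw, hlw1⟩
    have hball : ∀ w ∈ closedBall s₀ ρ, ‖deriv riemannZeta₁ w‖ ≤ 3264 * (|y| + 3) * l ^ 2 := by
      intro w hw'
      obtain ⟨h1, h2, h3, h4, h5⟩ := hw w hw'
      refine (norm_deriv_zeta₁_le h1 h2).trans ?_
      calc 408 * (|w.im| + 3) * lg 1 w.im ^ 2 ≤ 408 * (2 * (|y| + 3)) * (2 * l) ^ 2 := by
            gcongr; linarith
        _ = 3264 * (|y| + 3) * l ^ 2 := by ring
    have hbig : 2 * (3264 * (|y| + 3) * l ^ 2) * ρ ≤ ‖riemannZeta₁ s₀‖ := by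
      refine le_trans (le_of_eq ?_) (hlow y)
      rw [hρ, ← hldef]
      field_simp
      norm_num
    have hdisc := disc_logDeriv differentiable_riemannZeta₁ hρ0
      (by positivity) hball hbig
    have hds : dist s s₀ ≤ ρ / 2 := by
      rw [dist_eq_norm]
      have h1 : s - s₀ = ((s.re - 1 : ℝ) : ℂ) := by
        apply Complex.ext <;> simp [hs₀, hy]
      rw [h1, Complex.norm_real, Real.norm_of_nonneg (by linarith)]
      exact hcase
    have hit := iter_bound (F := fun w => -(deriv riemannZeta₁ w / riemannZeta₁ w) -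
      riemannZeta₀ w) (M := 2 * (1 / ρ)) hρ0 (fun w hw' => by
        have hd := differentiable_riemannZeta₁
        exact ((hd.deriv w).div (hd w) (hdisc w hw').1).neg.sub (differentiable_riemannZeta₀ w))
      (fun w hw' => by
        obtain ⟨h1, h2, h3, h4, h5⟩ := hw w hw'
        have h6 : 1 / (8 * lg 1 w.im) ≤ 1 / (2 * lg 1 w.im) := by
          apply one_div_le_one_div_of_le (by linarith); linarith
        have h7 := norm_zeta₀_le' (s := w) (by linarith) (by linarith)
        have h8 : 48 * l ≤ 1 / ρ := by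
          rw [hρinv]
          calc 48 * l = 48 * 1 * (l * 1) := by ring
            _ ≤ 6528 * K * (l * l ^ 8) := by
              gcongr
              norm_num
            _ = _ := by ring
        refine (norm_sub_le _ _).trans ?_
        rw [norm_neg]
        have h9 := (hdisc w hw').2
        linarith) hds k
    have heq : ‖LSeries (fun n : ℕ => (((vonMangoldt n - 1) * Real.log n ^ k : ℝ) : ℂ)) s‖ =
        ‖iteratedDeriv k (fun w => -(deriv riemannZeta₁ w / riemannZeta₁ w) -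
          riemannZeta₀ w) s‖ := by
      rw [← LSeries_log_pow_eq (g := (fun n : ℕ => ((vonMangoldt n : ℝ) : ℂ)) - (1 : ℕ → ℂ))
        (fun s hs => ?_) (fun s hs => ?_) k hs]
      · congr 1
        refine LSeries_congr (fun {n} _ => ?_) s
        simp only [Pi.sub_apply, Pi.one_apply]
        push_cast
        ring
      · exact (ArithmeticFunction.LSeriesSummable_vonMangoldt hs).sub
          (LSeriesSummable_one_iff.mpr hs)
      · have hs1 : s ≠ 1 := by intro h; rw [h, one_re] at hs; exact lt_irrefl _ hs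
        rw [LSeries_sub (ArithmeticFunction.LSeriesSummable_vonMangoldt hs)
          (LSeriesSummable_one_iff.mpr hs), LSeries_vonMangoldt_eq' hs,
          LSeries_one_eq_riemannZeta hs, riemannZeta_eq_inv_sub_add hs1]
        ring
    rw [heq]
    refine hit.trans (le_trans (le_of_eq ?_) (le_add_of_nonneg_left hCf))
    rw [pow_succ, div_pow, one_div, inv_pow]
    field_simp
  · -- away from the line
    have h1 := hfar (fun n : ℕ => (((vonMangoldt n - 1) * Real.log n ^ k : ℝ) : ℂ))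
      (fun n => ?_) s hs hs2
    · refine h1.trans ((near_or_far hρ0 hC k hcase).trans (le_add_of_nonneg_right hkf))
    · have hL := vonMangoldt_nonneg (n := n)
      have hlogn : 0 ≤ Real.log (n : ℝ) := Real.log_natCast_nonneg n
      rw [Complex.norm_real, norm_mul, norm_pow, Real.norm_of_nonneg hlogn]
      refine mul_le_mul_of_nonneg_right ?_ (by positivity)
      rw [Real.norm_eq_abs, abs_le]
      constructor <;> linarith

end Pool.Agent.SW
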