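import Pool.Agent.H20.SW.Cpow
import Pool.Agent.H41.SF.CharSum

/-!
Truncated Dirichlet series approximate `L(s, χ)` and `ζ(s)` in the half plane `0 < Re s`.
-/

set_option autoImplicit false

namespace Pool.Agent.SW

open Complex Finset Filter Topology

lemma abel_identity' (a b : ℕ → ℂ) (M : ℕ) : ∀ N, M ≤ N →
    ∑ i ∈ Ico M N, a i * b i = b N * ∑ i ∈ Ico M N, a i +
      ∑ i ∈ Ico M N, (b i - b (i+1)) * ∑ j ∈ Ico M (i+1), a j := by
  intro N hN
  induction N, hN using Nat.le_induction with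
  | base => simp
  | succ n hn ih =>
    rw [Finset.sum_Ico_succ_top hn, ih, Finset.sum_Ico_succ_top hn, Finset.sum_Ico_succ_top hn,
      Finset.sum_Ico_succ_top hn]
    ring

lemma sum_telescope (c : ℕ → ℝ) (M : ℕ) : ∀ N, M ≤ N →
    ∑ i ∈ Ico M N, (c i - c (i+1)) = c M - c N := by
  intro N hN
  induction N, hN using Nat.le_induction with
  | base => simp
  | succ n hn ih => rw [Finset.sum_Ico_succ_top hn, ih]; ring

lemma sum_telescope' (c : ℕ → ℂ) (M : ℕ) : ∀ N, M ≤ N →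
    ∑ i ∈ Ico M N, (c (i+1) - c i) = c N - c M := by
  intro N hN
  induction N, hN using Nat.le_induction with
  | base => simp
  | succ n hn ih => rw [Finset.sum_Ico_succ_top hn, ih]; ring

/-- complex Abel summation bound -/
lemma abel_cpow_bound (a : ℕ → ℂ) {D : ℝ} (hA : ∀ M k, ‖∑ i ∈ Ico M k, a i‖ ≤ D) {s : ℂ}
    (hs : 0 < s.re) {N K : ℕ} (hN : 1 ≤ N) (hNK : N ≤ K) :
    ‖∑ i ∈ Ico N K, a i * (i : ℂ) ^ (-s)‖ ≤ D * (1 + ‖s‖ / s.re) * (N : ℝ) ^ (-s.re) := by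
  have hD : 0 ≤ D := (norm_nonneg _).trans (hA 0 0)
  have hpow : ∀ n : ℕ, 1 ≤ n → ‖(n : ℂ) ^ (-s)‖ = (n : ℝ) ^ (-s.re) := by
    intro n hn
    have := norm_cpow_eq_rpow_re_of_pos (x := (n : ℝ)) (by exact_mod_cast hn) (-s)
    simpa using this
  rw [abel_identity' a (fun i => (i : ℂ) ^ (-s)) N K hNK]
  have h1 : ‖(K : ℂ) ^ (-s) * ∑ i ∈ Ico N K, a i‖ ≤ (K : ℝ) ^ (-s.re) * D := by
    rw [norm_mul, hpow K (hN.trans hNK)]
    exact mul_le_mul_of_nonneg_left (hA _ _) (by positivity)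
  have h2 : ‖∑ i ∈ Ico N K, ((i : ℂ) ^ (-s) - ((i + 1 : ℕ) : ℂ) ^ (-s)) *
      ∑ j ∈ Ico N (i+1), a j‖ ≤
      ∑ i ∈ Ico N K, (‖s‖ / s.re * D) * ((i : ℝ) ^ (-s.re) - ((i + 1 : ℕ) : ℝ) ^ (-s.re)) := by
    refine (norm_sum_le _ _).trans (Finset.sum_le_sum fun i hi => ?_)
    have hi' := (Finset.mem_Ico.1 hi).1
    have hi0 : (0 : ℝ) < i := by exact_mod_cast (hN.trans hi')
    have h := norm_cpow_sub_le hs hi0 (b := ((i + 1 : ℕ) : ℝ)) (by push_cast; linarith)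
    rw [norm_mul, norm_sub_rev]
    have h' : ‖(((i + 1 : ℕ) : ℂ) ^ (-s) - (i : ℂ) ^ (-s))‖ ≤ ‖s‖ / s.re *
      ((i : ℝ) ^ (-s.re) - ((i + 1 : ℕ) : ℝ) ^ (-s.re)) := by
      simpa using h
    calc _ ≤ (‖s‖ / s.re * ((i : ℝ) ^ (-s.re) - ((i + 1 : ℕ) : ℝ) ^ (-s.re))) * D :=
          mul_le_mul h' (hA _ _) (norm_nonneg _) ((norm_nonneg _).trans h')
      _ = _ := by ring
  rw [← Finset.mul_sum, sum_telescope (fun i => (i : ℝ) ^ (-s.re)) N K hNK] at h2
  refine (norm_add_le _ _).trans ((add_le_add h1 h2).trans ?_)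
  have h3 : (K : ℝ) ^ (-s.re) ≤ (N : ℝ) ^ (-s.re) :=
    Real.rpow_le_rpow_of_nonpos (by exact_mod_cast hN) (by exact_mod_cast hNK) (by linarith)
  have h4 : (0 : ℝ) ≤ (K : ℝ) ^ (-s.re) := by positivity
  have h5 : 0 ≤ ‖s‖ / s.re * D := by positivity
  have h6 : (K : ℝ) ^ (-s.re) * D ≤ (N : ℝ) ^ (-s.re) * D := mul_le_mul_of_nonneg_right h3 hD
  nlinarith [mul_nonneg h5 h4]

/-- extension of a truncated approximation from `1 < Re s` to `0 < Re s` -/
theorem trunc_ext (F : ℕ → ℂ → ℂ) (G : ℂ → ℂ) (Φ : ℂ → ℝ)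
    (hF : ∀ K, 1 ≤ K → ∀ s, 0 < s.re → DifferentiableAt ℂ (F K) s)
    (hG : ∀ s, 0 < s.re → DifferentiableAt ℂ G s)
    (hΦ : ∀ s, 0 < s.re → ContinuousAt Φ s) (hΦ0 : ∀ s, 0 < s.re → 0 ≤ Φ s)
    (hb : ∀ s, 0 < s.re → ∀ N K, 1 ≤ N → N ≤ K → ‖F K s - F N s‖ ≤ Φ s * (N : ℝ) ^ (-s.re))
    (hlim : ∀ s, 1 < s.re → Tendsto (fun K => F K s) atTop (𝓝 (G s))) :
    ∀ s, 0 < s.re → ∀ N, 1 ≤ N → ‖G s - F N s‖ ≤ Φ s * (N : ℝ) ^ (-s.re) := by
  set U : Set ℂ := {s | 0 < s.re} with hU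
  have hUo : IsOpen U := isOpen_re_gt 0
  have hz : ∀ r : ℝ, 0 < r → Tendsto (fun N : ℕ => ((N : ℝ)) ^ (-r)) atTop (𝓝 0) := fun r hr =>
    (tendsto_rpow_neg_atTop hr).comp tendsto_natCast_atTop_atTop
  have hcau : ∀ s ∈ U, ∃ g : ℂ, Tendsto (fun K => F K s) atTop (𝓝 g) := by
    intro s hs
    refine cauchySeq_tendsto_of_complete ?_
    rw [Metric.cauchySeq_iff']
    intro ε hε
    have h1 : Tendsto (fun N : ℕ => Φ s * (N : ℝ) ^ (-s.re)) atTop (𝓝 (Φ s * 0)) :=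
      (hz _ hs).const_mul _
    rw [mul_zero] at h1
    obtain ⟨N, hN, hN1⟩ := ((h1.eventually_lt_const hε).and (eventually_ge_atTop 1)).exists
    refine ⟨N, fun K hK => ?_⟩
    rw [dist_eq_norm]
    exact (hb s hs N K hN1 hK).trans_lt hN
  choose! g hg using hcau
  have hgb : ∀ s ∈ U, ∀ N, 1 ≤ N → ‖g s - F N s‖ ≤ Φ s * (N : ℝ) ^ (-s.re) := by
    intro s hs N hN
    refine le_of_tendsto ((hg s hs).sub_const _).norm ?_
    filter_upwards [eventually_ge_atTop N] with K hK using hb s hs N K hN hK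
  have hlu : TendstoLocallyUniformlyOn F g atTop U := by
    rw [Metric.tendstoLocallyUniformlyOn_iff]
    intro ε hε s hs
    have hs' : 0 < s.re := hs
    have hre : ∀ᶠ w in 𝓝 s, s.re / 2 < w.re :=
      Complex.continuous_re.continuousAt.eventually_const_lt (by linarith)
    have hph : ∀ᶠ w in 𝓝 s, Φ w < Φ s + 1 := (hΦ s hs).eventually_lt_const (by linarith)
    refine ⟨{w | s.re / 2 < w.re ∧ Φ w < Φ s + 1}, nhdsWithin_le_nhds (hre.and hph), ?_⟩
    have h1 : Tendsto (fun N : ℕ => (Φ s + 1) * (N : ℝ) ^ (-(s.re / 2))) atTop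
        (𝓝 ((Φ s + 1) * 0)) := (hz _ (by linarith)).const_mul _
    rw [mul_zero] at h1
    filter_upwards [h1.eventually_lt_const hε, eventually_ge_atTop 1] with N hN hN1 w hw
    have hw0 : w ∈ U := lt_trans (by linarith : (0 : ℝ) < s.re / 2) hw.1
    rw [dist_eq_norm]
    refine (hgb w hw0 N hN1).trans_lt (lt_of_le_of_lt ?_ hN)
    have hN1' : (1 : ℝ) ≤ N := by exact_mod_cast hN1
    refine mul_le_mul hw.2.le ?_ (by positivity) (by linarith [hΦ0 s hs])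
    exact Real.rpow_le_rpow_of_exponent_le hN1' (by linarith [hw.1])
  have hgd : DifferentiableOn ℂ g U := by
    refine hlu.differentiableOn ?_ hUo
    filter_upwards [eventually_ge_atTop 1] with K hK s hs
    exact (hF K hK s hs).differentiableWithinAt
  have hGd : DifferentiableOn ℂ G U := fun s hs => (hG s hs).differentiableWithinAt
  have hpre : IsPreconnected U := (convex_halfSpace_re_gt 0).isPreconnected
  have hev : g =ᶠ[𝓝 (2 : ℂ)] G := by
    filter_upwards [(isOpen_re_gt 1).mem_nhds (show (2 : ℂ) ∈ {s : ℂ | 1 < s.re} by simp)]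
      with z hz
    have hz' : 1 < z.re := hz
    exact tendsto_nhds_unique (hg z (show 0 < z.re by linarith)) (hlim z hz)
  have heq : Set.EqOn g G U := (hgd.analyticOnNhd hUo).eqOn_of_preconnected_of_eventuallyEq
    (hGd.analyticOnNhd hUo) hpre (show (2 : ℂ) ∈ U by simp [hU]) hev
  intro s hs N hN
  rw [← heq hs]
  exact hgb s hs N hN

section char

variable {q : ℕ} [NeZero q]

lemma tendsto_sum_char (χ : DirichletCharacter ℂ q) {s : ℂ} (hs : 1 < s.re) :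
    Tendsto (fun K : ℕ => ∑ i ∈ Ico 1 K, χ (i : ZMod q) * (i : ℂ) ^ (-s)) atTop
      (𝓝 (LSeries (fun n => χ (n : ZMod q)) s)) := by
  have hsum : LSeriesSummable (fun n => χ (n : ZMod q)) s :=
    DirichletCharacter.LSeriesSummable_of_one_lt_re χ hs
  refine hsum.hasSum.tendsto_sum_nat.congr' ?_
  filter_upwards [eventually_ge_atTop 1] with K hK
  rw [Finset.range_eq_Ico, Finset.sum_eq_sum_Ico_succ_bot (by omega), LSeries.term_zero, zero_add]
  refine Finset.sum_congr rfl fun n hn => ?_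
  have := (Finset.mem_Ico.1 hn).1
  rw [LSeries.term_of_ne_zero (by omega), Complex.cpow_neg, div_eq_mul_inv]

/-- truncated approximation of `L(s, χ)` -/
theorem LFunction_approx (χ : DirichletCharacter ℂ q) (hχ : χ ≠ 1) {s : ℂ} (hs : 0 < s.re)
    {N : ℕ} (hN : 1 ≤ N) :
    ‖DirichletCharacter.LFunction χ s - ∑ i ∈ Ico 1 N, χ (i : ZMod q) * (i : ℂ) ^ (-s)‖ ≤
      q * (1 + ‖s‖ / s.re) * (N : ℝ) ^ (-s.re) := by
  refine trunc_ext (fun K s => ∑ i ∈ Ico 1 K, χ (i : ZMod q) * (i : ℂ) ^ (-s))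
    (DirichletCharacter.LFunction χ) (fun s => q * (1 + ‖s‖ / s.re)) ?_ ?_ ?_ ?_ ?_ ?_ s hs N hN
  · intro K _ s hs
    refine DifferentiableAt.fun_sum fun i hi => ?_
    have hi1 := (Finset.mem_Ico.1 hi).1
    refine DifferentiableAt.const_mul ?_ _
    refine DifferentiableAt.const_cpow (by fun_prop) (Or.inl ?_)
    exact_mod_cast (by omega : i ≠ 0)
  · intro s _
    exact DirichletCharacter.differentiable_LFunction hχ s
  · intro s hs
    refine ContinuousAt.mul continuousAt_const (ContinuousAt.add continuousAt_const ?_)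
    exact continuous_norm.continuousAt.div Complex.continuous_re.continuousAt hs.ne'
  · intro s hs; positivity
  · intro s hs N K hN hNK
    rw [← Finset.sum_Ico_consecutive _ hN hNK, add_sub_cancel_left]
    exact abel_cpow_bound (fun i => χ (i : ZMod q))
      (fun M k => Pool.Agent.H41.SF.norm_sum_Ico_le χ hχ M k) hs hN hNK
  · intro s hs
    rw [DirichletCharacter.LFunction_eq_LSeries χ hs]
    exact tendsto_sum_char χ hs

end char

/-- truncated approximation of `(s-1) ζ(s)` -/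
theorem zeta₁_approx {s : ℂ} (hs : 0 < s.re) {N : ℕ} (hN : 1 ≤ N) :
    ‖riemannZeta₁ s - ((s - 1) * ∑ i ∈ Ico 1 N, (i : ℂ) ^ (-s) + (N : ℂ) ^ (1 - s))‖ ≤
      (‖s - 1‖ * (‖s‖ / s.re)) * (N : ℝ) ^ (-s.re) := by
  refine trunc_ext (fun K s => (s - 1) * ∑ i ∈ Ico 1 K, (i : ℂ) ^ (-s) + (K : ℂ) ^ (1 - s))
    riemannZeta₁ (fun s => ‖s - 1‖ * (‖s‖ / s.re)) ?_ ?_ ?_ ?_ ?_ ?_ s hs N hN
  · intro K hK s hs
    have h1 : DifferentiableAt ℂ (fun s : ℂ => ∑ i ∈ Ico 1 K, (i : ℂ) ^ (-s)) s := by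
      refine DifferentiableAt.fun_sum fun i hi => ?_
      have hi1 := (Finset.mem_Ico.1 hi).1
      refine DifferentiableAt.const_cpow (by fun_prop) (Or.inl ?_)
      exact_mod_cast (by omega : i ≠ 0)
    have h2 : DifferentiableAt ℂ (fun s : ℂ => (K : ℂ) ^ (1 - s)) s := by
      refine DifferentiableAt.const_cpow (by fun_prop) (Or.inl ?_)
      exact_mod_cast (by omega : K ≠ 0)
    exact (DifferentiableAt.mul (by fun_prop) h1).add h2
  · intro s _
    exact differentiable_riemannZeta₁ s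
  · intro s hs
    refine ContinuousAt.mul (by fun_prop) ?_
    exact continuous_norm.continuousAt.div Complex.continuous_re.continuousAt hs.ne'
  · intro s hs; positivity
  · intro s hs N K hN hNK
    have h1 : ((s - 1) * ∑ i ∈ Ico 1 K, (i : ℂ) ^ (-s) + (K : ℂ) ^ (1 - s)) -
        ((s - 1) * ∑ i ∈ Ico 1 N, (i : ℂ) ^ (-s) + (N : ℂ) ^ (1 - s)) =
        ∑ i ∈ Ico N K, T i s := by
      have h2 := sum_telescope' (fun i : ℕ => (i : ℂ) ^ (1 - s)) N K hNK
      unfold T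
      rw [Finset.sum_add_distrib, h2, ← Finset.mul_sum,
        ← Finset.sum_Ico_consecutive (fun i : ℕ => (i : ℂ) ^ (-s)) hN hNK]
      ring
    rw [h1]
    refine (norm_sum_le _ _).trans ((Finset.sum_le_sum fun i hi =>
      norm_T_le hs (hN.trans (Finset.mem_Ico.1 hi).1)).trans ?_)
    rw [← Finset.mul_sum, ← Finset.mul_sum, sum_telescope (fun i => (i : ℝ) ^ (-s.re)) N K hNK,
      ← mul_assoc]
    refine mul_le_mul_of_nonneg_left ?_ (by positivity)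
    have : (0 : ℝ) ≤ (K : ℝ) ^ (-s.re) := by positivity
    linarith
  · intro s hs
    have hs1 : s ≠ 1 := by intro h; rw [h, one_re] at hs; exact lt_irrefl _ hs
    have hsum := (LSeriesSummable_one_iff.mpr hs).hasSum.tendsto_sum_nat
    have h3 : Tendsto (fun K : ℕ => ∑ i ∈ Ico 1 K, (i : ℂ) ^ (-s)) atTop (𝓝 (riemannZeta s)) := by
      rw [← LSeries_one_eq_riemannZeta hs]
      refine hsum.congr' ?_
      filter_upwards [eventually_ge_atTop 1] with K hK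
      rw [Finset.range_eq_Ico, Finset.sum_eq_sum_Ico_succ_bot (by omega), LSeries.term_zero,
        zero_add]
      refine Finset.sum_congr rfl fun n hn => ?_
      have := (Finset.mem_Ico.1 hn).1
      rw [LSeries.term_of_ne_zero (by omega), Complex.cpow_neg, Pi.one_apply, one_div]
    have h4 : Tendsto (fun K : ℕ => (K : ℂ) ^ (1 - s)) atTop (𝓝 0) := by
      rw [tendsto_zero_iff_norm_tendsto_zero]
      have h5 : Tendsto (fun N : ℕ => ((N : ℝ)) ^ (-(s.re - 1))) atTop (𝓝 0) :=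
        (tendsto_rpow_neg_atTop (by linarith)).comp tendsto_natCast_atTop_atTop
      refine h5.congr' ?_
      filter_upwards [eventually_ge_atTop 1] with K hK
      have := norm_cpow_eq_rpow_re_of_pos (x := (K : ℝ)) (by exact_mod_cast hK) (1 - s)
      have h6 : (1 - s).re = -(s.re - 1) := by simp
      rw [h6] at this
      rw [← this]
      simp
    have h7 : riemannZeta₁ s = (s - 1) * riemannZeta s + 0 := by
      rw [riemannZeta_eq_inv_sub_mul hs1, add_zero, ← mul_assoc,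
        mul_inv_cancel₀ (sub_ne_zero.2 hs1), one_mul]
    rw [h7]
    exact (h3.const_mul _).add h4

/-- bound for `ζ(s) - 1/(s-1)` -/
theorem norm_zeta₀_le {s : ℂ} (hs : 0 < s.re) (hs1 : s ≠ 1) {N : ℕ} (hN : 1 ≤ N) :
    ‖riemannZeta₀ s‖ ≤ 2 * ∑ i ∈ Ico 1 N, (i : ℝ) ^ (-s.re) + (‖s‖ / s.re) * (N : ℝ) ^ (-s.re) := by
  have h1 := zeta₁_approx hs hN
  have hs0 : 0 < ‖s - 1‖ := norm_pos_iff.2 (sub_ne_zero.2 hs1)
  have h2 : ‖(N : ℂ) ^ (1 - s) - 1‖ ≤ ‖s - 1‖ * ∑ i ∈ Ico 1 N, (i : ℝ) ^ (-s.re) := by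
    have h3 := sum_telescope' (fun i : ℕ => (i : ℂ) ^ (1 - s)) 1 N hN
    have h4 : ((1 : ℕ) : ℂ) ^ (1 - s) = 1 := by simp
    rw [h4] at h3
    rw [← h3, Finset.mul_sum]
    refine norm_sum_le_of_le _ fun i hi => ?_
    have hi1 := (Finset.mem_Ico.1 hi).1
    have h5 := norm_cpow_one_sub_sub_le hs (a := (i : ℝ)) (b := ((i + 1 : ℕ) : ℝ))
      (by exact_mod_cast hi1) (by push_cast; linarith)
    have h6 : (((i + 1 : ℕ) : ℝ) - (i : ℝ)) = 1 := by push_cast; ring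
    rw [h6, mul_one] at h5
    simpa using h5
  have h7 : ‖∑ i ∈ Ico 1 N, (i : ℂ) ^ (-s)‖ ≤ ∑ i ∈ Ico 1 N, (i : ℝ) ^ (-s.re) := by
    refine norm_sum_le_of_le _ fun i hi => ?_
    have hi1 := (Finset.mem_Ico.1 hi).1
    have := norm_cpow_eq_rpow_re_of_pos (x := (i : ℝ)) (by exact_mod_cast hi1) (-s)
    exact le_of_eq (by simpa using this)
  have h8 : (s - 1) * riemannZeta₀ s =
      (riemannZeta₁ s - ((s - 1) * ∑ i ∈ Ico 1 N, (i : ℂ) ^ (-s) + (N : ℂ) ^ (1 - s))) +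
      (s - 1) * ∑ i ∈ Ico 1 N, (i : ℂ) ^ (-s) + ((N : ℂ) ^ (1 - s) - 1) := by
    unfold riemannZeta₁
    ring
  have h9 : ‖s - 1‖ * ‖riemannZeta₀ s‖ ≤ ‖s - 1‖ *
      (2 * ∑ i ∈ Ico 1 N, (i : ℝ) ^ (-s.re) + (‖s‖ / s.re) * (N : ℝ) ^ (-s.re)) := by
    rw [← norm_mul, h8]
    refine (norm_add₃_le).trans ?_
    rw [norm_mul]
    have := mul_le_mul_of_nonneg_left h7 hs0.le
    nlinarith
  exact le_of_mul_le_mul_left h9 hs0

end Pool.Agent.SW
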