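import Mathlib

/-!
Elementary bounds for differences of complex powers `x ^ (-s)` of positive reals.
-/

set_option autoImplicit false

namespace Pool.Agent.SW

open Complex Set

lemma hasDerivAt_cpow {r : ℂ} {x : ℝ} (hx : 0 < x) :
    HasDerivAt (fun y : ℝ => (y : ℂ) ^ r) (r * (x : ℂ) ^ (r - 1)) x := by
  have h1 : HasDerivAt (fun z : ℂ => z ^ r) (r * (x : ℂ) ^ (r - 1) * 1) (x : ℂ) :=
    (hasDerivAt_id (x : ℂ)).cpow_const (Or.inl (by simpa using hx))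
  rw [mul_one] at h1
  exact h1.comp_ofReal

/-- `‖b^{-s} - a^{-s}‖ ≤ |s|/σ (a^{-σ} - b^{-σ})` -/
lemma norm_cpow_sub_le {s : ℂ} (hs : 0 < s.re) {a b : ℝ} (ha : 0 < a) (hab : a ≤ b) :
    ‖(b : ℂ) ^ (-s) - (a : ℂ) ^ (-s)‖ ≤ ‖s‖ / s.re * (a ^ (-s.re) - b ^ (-s.re)) := by
  have key := image_norm_le_of_norm_deriv_right_le_deriv_boundary' (a := a) (b := b)
    (f := fun x : ℝ => (x : ℂ) ^ (-s) - (a : ℂ) ^ (-s)) (f' := fun x : ℝ => -s * (x : ℂ) ^ (-s - 1))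
    (B := fun x : ℝ => ‖s‖ / s.re * (a ^ (-s.re) - x ^ (-s.re)))
    (B' := fun x : ℝ => ‖s‖ / s.re * (-(-s.re * x ^ (-s.re - 1)))) ?_ ?_ ?_ ?_ ?_ ?_
  · exact key (right_mem_Icc.2 hab)
  · intro x hx
    exact ((hasDerivAt_cpow (r := -s) (lt_of_lt_of_le ha hx.1)).sub_const
      _).continuousAt.continuousWithinAt
  · intro x hx
    exact ((hasDerivAt_cpow (r := -s) (lt_of_lt_of_le ha hx.1)).sub_const _).hasDerivWithinAt
  · simp
  · intro x hx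
    have h := (Real.hasDerivAt_rpow_const (x := x) (p := -s.re)
      (Or.inl (lt_of_lt_of_le ha hx.1).ne'))
    exact ((h.const_sub (a ^ (-s.re))).const_mul _).continuousAt.continuousWithinAt
  · intro x hx
    have h := (Real.hasDerivAt_rpow_const (x := x) (p := -s.re)
      (Or.inl (lt_of_lt_of_le ha hx.1).ne'))
    exact ((h.const_sub (a ^ (-s.re))).const_mul _).hasDerivWithinAt
  · intro x hx
    have hx0 := lt_of_lt_of_le ha hx.1
    rw [norm_mul, norm_neg, norm_cpow_eq_rpow_re_of_pos hx0]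
    have h2 : (-s - 1).re = -s.re - 1 := by simp
    rw [h2]
    apply le_of_eq
    field_simp

/-- `‖b^{1-s} - a^{1-s}‖ ≤ |1-s| a^{-σ} (b-a)` -/
lemma norm_cpow_one_sub_sub_le {s : ℂ} (hs : 0 < s.re) {a b : ℝ} (ha : 0 < a) (hab : a ≤ b) :
    ‖(b : ℂ) ^ (1 - s) - (a : ℂ) ^ (1 - s)‖ ≤ ‖s - 1‖ * a ^ (-s.re) * (b - a) := by
  have key := norm_image_sub_le_of_norm_deriv_right_le_segment (a := a) (b := b)
    (f := fun x : ℝ => (x : ℂ) ^ (1 - s))
    (f' := fun x : ℝ => (1 - s) * (x : ℂ) ^ (1 - s - 1))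
    (C := ‖s - 1‖ * a ^ (-s.re)) ?_ ?_ ?_
  · exact key b (right_mem_Icc.2 hab)
  · intro x hx
    exact (hasDerivAt_cpow (lt_of_lt_of_le ha hx.1)).continuousAt.continuousWithinAt
  · intro x hx
    exact (hasDerivAt_cpow (lt_of_lt_of_le ha hx.1)).hasDerivWithinAt
  · intro x hx
    have hx0 := lt_of_lt_of_le ha hx.1
    rw [norm_mul, norm_cpow_eq_rpow_re_of_pos hx0, norm_sub_rev]
    have h2 : (1 - s - 1).re = -s.re := by simp
    rw [h2]
    refine mul_le_mul_of_nonneg_left ?_ (norm_nonneg _)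
    exact Real.rpow_le_rpow_of_nonpos ha hx.1 (by linarith)

/-- the terms of the telescoping series of `(s-1) ζ(s)` -/
noncomputable def T (n : ℕ) (s : ℂ) : ℂ :=
  (s - 1) * (n : ℂ) ^ (-s) + (((n + 1 : ℕ) : ℂ) ^ (1 - s) - (n : ℂ) ^ (1 - s))

lemma norm_T_le {s : ℂ} (hs : 0 < s.re) {n : ℕ} (hn : 1 ≤ n) :
    ‖T n s‖ ≤ ‖s - 1‖ * (‖s‖ / s.re * ((n : ℝ) ^ (-s.re) - ((n + 1 : ℕ) : ℝ) ^ (-s.re))) := by
  have hn0 : (0 : ℝ) < n := by exact_mod_cast hn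
  have hab : (n : ℝ) ≤ ((n + 1 : ℕ) : ℝ) := by push_cast; linarith
  have key := norm_image_sub_le_of_norm_deriv_right_le_segment (a := (n : ℝ))
    (b := ((n + 1 : ℕ) : ℝ))
    (f := fun x : ℝ => (s - 1) * (n : ℂ) ^ (-s) * (x : ℂ) + (x : ℂ) ^ (1 - s))
    (f' := fun x : ℝ => (s - 1) * (n : ℂ) ^ (-s) * 1 + (1 - s) * (x : ℂ) ^ (1 - s - 1))
    (C := ‖s - 1‖ * (‖s‖ / s.re * ((n : ℝ) ^ (-s.re) - ((n + 1 : ℕ) : ℝ) ^ (-s.re)))) ?_ ?_ ?_
  · have h1 := key _ (right_mem_Icc.2 hab)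
    have h2 : (((n + 1 : ℕ) : ℝ) - (n : ℝ)) = 1 := by push_cast; ring
    rw [h2, mul_one] at h1
    refine le_trans (le_of_eq ?_) h1
    unfold T
    congr 1
    push_cast
    ring
  · intro x hx
    have hx0 := lt_of_lt_of_le hn0 hx.1
    exact ((((hasDerivAt_id (x : ℂ)).comp_ofReal).const_mul _).add
      (hasDerivAt_cpow hx0)).continuousAt.continuousWithinAt
  · intro x hx
    have hx0 := lt_of_lt_of_le hn0 hx.1
    exact ((((hasDerivAt_id (x : ℂ)).comp_ofReal).const_mul _).add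
      (hasDerivAt_cpow hx0)).hasDerivWithinAt
  · intro x hx
    have hx0 := lt_of_lt_of_le hn0 hx.1
    have h1 : (s - 1) * (n : ℂ) ^ (-s) * 1 + (1 - s) * (x : ℂ) ^ (1 - s - 1)
        = (1 - s) * ((x : ℂ) ^ (-s) - ((n : ℝ) : ℂ) ^ (-s)) := by
      have : (1 - s - 1 : ℂ) = -s := by ring
      rw [this]
      push_cast
      ring
    rw [h1, norm_mul, norm_sub_rev 1 s]
    refine mul_le_mul_of_nonneg_left ?_ (norm_nonneg _)
    refine (norm_cpow_sub_le hs hn0 hx.1).trans ?_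
    refine mul_le_mul_of_nonneg_left ?_ (by positivity)
    have : ((n + 1 : ℕ) : ℝ) ^ (-s.re) ≤ x ^ (-s.re) :=
      Real.rpow_le_rpow_of_nonpos hx0 hx.2.le (by linarith)
    linarith

end Pool.Agent.SW
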