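import Pool.Agent.H20.SW.Approx

/-!
`|L(s, χ)|, |ζ(s) - 1/(s-1)| ≤ 24 log(d(|t|+3))` and the derivatives, for `Re s` slightly to the
left of one.
-/

set_option autoImplicit false

namespace Pool.Agent.SW

open Complex Finset Filter Topology Metric

/-- `log (d (|t| + 3))` -/
noncomputable def lg (d t : ℝ) : ℝ := Real.log (d * (|t| + 3))

lemma one_le_lg {d : ℝ} (hd : 1 ≤ d) (t : ℝ) : 1 ≤ lg d t := by
  unfold lg
  have h1 : (0 : ℝ) ≤ |t| := abs_nonneg t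
  have h2 : (3 : ℝ) ≤ d * (|t| + 3) := by nlinarith
  rw [Real.le_log_iff_exp_le (by linarith)]
  have := Real.exp_one_lt_d9
  linarith

lemma lg_pos {d : ℝ} (hd : 1 ≤ d) (t : ℝ) : 0 < lg d t := by linarith [one_le_lg hd t]

lemma lg_le_two_mul_of {d t t' : ℝ} (hd : 1 ≤ d) (h : |t'| + 3 ≤ (|t| + 3) ^ 2) :
    lg d t' ≤ 2 * lg d t := by
  unfold lg
  have h1 : (0 : ℝ) ≤ |t| := abs_nonneg t
  have h2 : (0 : ℝ) ≤ |t'| := abs_nonneg t'
  have h3 : 2 * Real.log (d * (|t| + 3)) = Real.log ((d * (|t| + 3)) ^ 2) := by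
    rw [Real.log_pow]; norm_num
  rw [h3]
  apply Real.log_le_log (by positivity)
  rw [mul_pow]
  have h4 : d ≤ d ^ 2 := by nlinarith
  calc d * (|t'| + 3) ≤ d * (|t| + 3) ^ 2 := by gcongr
    _ ≤ d ^ 2 * (|t| + 3) ^ 2 := by gcongr

lemma lg_le_two_mul {d t t' : ℝ} (hd : 1 ≤ d) (h : |t'| ≤ |t| + 1) :
    lg d t' ≤ 2 * lg d t := by
  refine lg_le_two_mul_of hd ?_
  have h1 : (0 : ℝ) ≤ |t| := abs_nonneg t
  nlinarith

lemma lg_two_mul_le {d : ℝ} (hd : 1 ≤ d) (t : ℝ) : lg d (2 * t) ≤ 2 * lg d t := by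
  refine lg_le_two_mul_of hd ?_
  have h1 : (0 : ℝ) ≤ |t| := abs_nonneg t
  rw [abs_mul, abs_two]
  nlinarith

lemma lg_mono {d t t' : ℝ} (hd : 1 ≤ d) (h : |t'| ≤ |t|) : lg d t' ≤ lg d t := by
  unfold lg
  have h2 : (0 : ℝ) ≤ |t'| := abs_nonneg t'
  exact Real.log_le_log (by positivity) (by gcongr)

lemma lg_mono_left {d d' t : ℝ} (hd : 1 ≤ d) (h : d ≤ d') : lg d t ≤ lg d' t := by
  unfold lg
  have h2 : (0 : ℝ) ≤ |t| := abs_nonneg t
  exact Real.log_le_log (by positivity) (by gcongr)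

lemma rpow_neg_le {X σ y : ℝ} (hX : 3 ≤ X) (hσ : 1 - 1 / (2 * Real.log X) ≤ σ) (hy : 1 ≤ y)
    (hyX : y ≤ 2 * X) : y ^ (-σ) ≤ 3 / y := by
  have hl1 : 1 ≤ Real.log X := by
    rw [Real.le_log_iff_exp_le (by linarith)]
    have := Real.exp_one_lt_d9
    linarith
  have hly : Real.log y ≤ 2 * Real.log X := by
    calc Real.log y ≤ Real.log (2 * X) := Real.log_le_log (by linarith) hyX
      _ = Real.log 2 + Real.log X := Real.log_mul (by norm_num) (by linarith)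
      _ ≤ 2 * Real.log X := by
        have := Real.log_le_log (by norm_num : (0:ℝ) < 2) (by linarith : 2 ≤ X)
        linarith
  have hly0 : 0 ≤ Real.log y := Real.log_nonneg hy
  have h1 : Real.log y * -σ ≤ 1 + -Real.log y := by
    have h2 : Real.log y * (1 / (2 * Real.log X)) ≤ 1 := by
      rw [mul_one_div, div_le_one (by linarith)]
      exact hly
    nlinarith [mul_le_mul_of_nonneg_left hσ hly0]
  rw [Real.rpow_def_of_pos (by linarith)]
  calc Real.exp (Real.log y * -σ) ≤ Real.exp (1 + -Real.log y) := Real.exp_le_exp.2 h1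
    _ = Real.exp 1 * y⁻¹ := by rw [Real.exp_add, Real.exp_neg, Real.exp_log (by linarith)]
    _ ≤ 3 / y := by
      rw [div_eq_mul_inv]
      have := Real.exp_one_lt_d9
      have h3 : 0 ≤ y⁻¹ := by positivity
      nlinarith

lemma sum_inv_le (N : ℕ) : ∑ i ∈ Ico 1 N, (1 / (i : ℝ)) ≤ 1 + Real.log N := by
  have h := harmonic_le_one_add_log N
  rw [harmonic_eq_sum_Icc] at h
  push_cast at h
  refine le_trans ?_ h
  simp only [one_div]
  refine Finset.sum_le_sum_of_subset_of_nonneg ?_ fun i _ _ => by positivity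
  intro i hi
  have := Finset.mem_Ico.1 hi
  exact Finset.mem_Icc.2 ⟨this.1, this.2.le⟩

/-- the truncation point -/
lemma trunc_data {X σ : ℝ} (hX : 3 ≤ X) (hσ : 1 - 1 / (2 * Real.log X) ≤ σ) :
    ∃ N : ℕ, 1 ≤ N ∧ ∑ i ∈ Ico 1 N, (i : ℝ) ^ (-σ) ≤ 9 * Real.log X ∧
      (N : ℝ) ^ (-σ) ≤ 3 / X := by
  have hl1 : 1 ≤ Real.log X := by
    rw [Real.le_log_iff_exp_le (by linarith)]
    have := Real.exp_one_lt_d9
    linarith
  refine ⟨⌈X⌉₊, Nat.ceil_pos.2 (by linarith), ?_, ?_⟩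
  · have hN2 : ((⌈X⌉₊ : ℕ) : ℝ) ≤ 2 * X := by
      have := Nat.ceil_lt_add_one (show 0 ≤ X by linarith)
      linarith
    have hN1 : X ≤ ((⌈X⌉₊ : ℕ) : ℝ) := Nat.le_ceil X
    have h1 : ∑ i ∈ Ico 1 ⌈X⌉₊, (i : ℝ) ^ (-σ) ≤ ∑ i ∈ Ico 1 ⌈X⌉₊, 3 * (1 / (i : ℝ)) := by
      refine Finset.sum_le_sum fun i hi => ?_
      have hi := Finset.mem_Ico.1 hi
      have h2 := rpow_neg_le hX hσ (y := (i : ℝ)) (by exact_mod_cast hi.1)
        (le_trans (by exact_mod_cast hi.2.le) hN2)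
      rw [mul_one_div]
      exact h2
    refine h1.trans ?_
    rw [← Finset.mul_sum]
    have h3 := sum_inv_le ⌈X⌉₊
    have h4 : Real.log ((⌈X⌉₊ : ℕ) : ℝ) ≤ 2 * Real.log X := by
      calc Real.log ((⌈X⌉₊ : ℕ) : ℝ) ≤ Real.log (2 * X) := Real.log_le_log (by linarith) hN2
        _ = Real.log 2 + Real.log X := Real.log_mul (by norm_num) (by linarith)
        _ ≤ 2 * Real.log X := by
          have := Real.log_le_log (by norm_num : (0:ℝ) < 2) (by linarith : 2 ≤ X)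
          linarith
    linarith
  · have hN2 : ((⌈X⌉₊ : ℕ) : ℝ) ≤ 2 * X := by
      have := Nat.ceil_lt_add_one (show 0 ≤ X by linarith)
      linarith
    have hN1 : X ≤ ((⌈X⌉₊ : ℕ) : ℝ) := Nat.le_ceil X
    refine (rpow_neg_le hX hσ (by linarith) hN2).trans ?_
    exact div_le_div_of_nonneg_left (by norm_num) (by linarith) hN1

section

variable {q : ℕ} [NeZero q]

lemma one_le_q : (1 : ℝ) ≤ (q : ℝ) := by exact_mod_cast NeZero.one_le

lemma norm_cast_cpow {i : ℕ} (hi : 1 ≤ i) (s : ℂ) : ‖(i : ℂ) ^ (-s)‖ = (i : ℝ) ^ (-s.re) := by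
  have := norm_cpow_eq_rpow_re_of_pos (x := (i : ℝ)) (by exact_mod_cast hi) (-s)
  simpa using this

lemma norm_le_three_add {s : ℂ} (h0 : 0 ≤ s.re) (h3 : s.re ≤ 3) : ‖s‖ ≤ |s.im| + 3 := by
  have := Complex.norm_le_abs_re_add_abs_im s
  rw [abs_of_nonneg h0] at this
  linarith

theorem norm_LFunction_le (χ : DirichletCharacter ℂ q) (hχ : χ ≠ 1) {s : ℂ}
    (hs : 1 - 1 / (2 * lg q s.im) ≤ s.re) (hs3 : s.re ≤ 3) :
    ‖DirichletCharacter.LFunction χ s‖ ≤ 24 * lg q s.im := by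
  have hq := one_le_q (q := q)
  have hl1 := one_le_lg hq s.im
  have ht : (0 : ℝ) ≤ |s.im| := abs_nonneg _
  have hσ : 1 / 2 ≤ s.re := by
    have : 1 / (2 * lg q s.im) ≤ 1 / 2 := by
      apply div_le_div_of_nonneg_left (by norm_num) (by norm_num) (by linarith)
    linarith
  set X : ℝ := q * (|s.im| + 3) with hX
  have hX3 : 3 ≤ X := by rw [hX]; nlinarith
  have hlX : lg q s.im = Real.log X := rfl
  rw [hlX] at hs hl1 ⊢
  obtain ⟨N, hN1, hNs, hNp⟩ := trunc_data hX3 hs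
  have h1 := LFunction_approx χ hχ (s := s) (by linarith) hN1
  have h2 : ‖∑ i ∈ Ico 1 N, χ (i : ZMod q) * (i : ℂ) ^ (-s)‖ ≤
      ∑ i ∈ Ico 1 N, (i : ℝ) ^ (-s.re) := by
    refine norm_sum_le_of_le _ fun i hi => ?_
    have hi1 := (Finset.mem_Ico.1 hi).1
    rw [norm_mul, norm_cast_cpow hi1]
    have h3 := χ.norm_le_one (i : ZMod q)
    have h4 : (0 : ℝ) ≤ (i : ℝ) ^ (-s.re) := by positivity
    nlinarith
  have h5 : ‖s‖ ≤ |s.im| + 3 := norm_le_three_add (by linarith) hs3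
  have h6 : (q : ℝ) * (1 + ‖s‖ / s.re) * (N : ℝ) ^ (-s.re) ≤ 9 := by
    have h7 : ‖s‖ / s.re ≤ 2 * (|s.im| + 3) := by
      rw [div_le_iff₀ (by linarith)]
      nlinarith
    calc (q : ℝ) * (1 + ‖s‖ / s.re) * (N : ℝ) ^ (-s.re) ≤
        (q : ℝ) * (1 + 2 * (|s.im| + 3)) * (3 / X) := by gcongr
      _ ≤ (q : ℝ) * (3 * (|s.im| + 3)) * (3 / X) := by gcongr; linarith
      _ = 9 := by rw [hX]; field_simp; norm_num
  have h8 : ‖DirichletCharacter.LFunction χ s‖ ≤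
      ‖DirichletCharacter.LFunction χ s - ∑ i ∈ Ico 1 N, χ (i : ZMod q) * (i : ℂ) ^ (-s)‖ +
      ‖∑ i ∈ Ico 1 N, χ (i : ZMod q) * (i : ℂ) ^ (-s)‖ := by
    refine le_trans (le_of_eq ?_) (norm_add_le _ _)
    congr 1
    ring
  linarith

end

theorem norm_zeta₀_le' {s : ℂ} (hs : 1 - 1 / (2 * lg 1 s.im) ≤ s.re) (hs3 : s.re ≤ 3) :
    ‖riemannZeta₀ s‖ ≤ 24 * lg 1 s.im := by
  have hl1 := one_le_lg (le_refl (1:ℝ)) s.im
  rcases eq_or_ne s 1 with h | hs1
  · rw [h] at hl1 ⊢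
    rw [riemannZeta₀_one, Complex.norm_real, Real.norm_of_nonneg]
    · have := Real.eulerMascheroniConstant_lt_two_thirds
      linarith
    · have := Real.one_half_lt_eulerMascheroniConstant
      linarith
  have ht : (0 : ℝ) ≤ |s.im| := abs_nonneg _
  have hσ : 1 / 2 ≤ s.re := by
    have : 1 / (2 * lg 1 s.im) ≤ 1 / 2 := by
      apply div_le_div_of_nonneg_left (by norm_num) (by norm_num) (by linarith)
    linarith
  set X : ℝ := 1 * (|s.im| + 3) with hX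
  have hX3 : 3 ≤ X := by rw [hX]; nlinarith
  have hlX : lg 1 s.im = Real.log X := rfl
  rw [hlX] at hs hl1 ⊢
  obtain ⟨N, hN1, hNs, hNp⟩ := trunc_data hX3 hs
  have h1 := norm_zeta₀_le (s := s) (by linarith) hs1 hN1
  have h5 : ‖s‖ ≤ |s.im| + 3 := norm_le_three_add (by linarith) hs3
  have h6 : ‖s‖ / s.re * (N : ℝ) ^ (-s.re) ≤ 6 := by
    have h7 : ‖s‖ / s.re ≤ 2 * (|s.im| + 3) := by
      rw [div_le_iff₀ (by linarith)]
      nlinarith
    calc ‖s‖ / s.re * (N : ℝ) ^ (-s.re) ≤ 2 * (|s.im| + 3) * (3 / X) := by gcongr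
      _ = 6 := by rw [hX]; field_simp; norm_num
  linarith

/-- Cauchy estimate for the derivative -/
theorem norm_deriv_le_of_growth {f : ℂ → ℂ} (hf : Differentiable ℂ f) {d A : ℝ} (hd : 1 ≤ d)
    (hA : 0 ≤ A)
    (hg : ∀ s : ℂ, 1 - 1 / (2 * lg d s.im) ≤ s.re → s.re ≤ 3 → ‖f s‖ ≤ A * lg d s.im) {s : ℂ}
    (hs : 1 - 1 / (8 * lg d s.im) ≤ s.re) (hs2 : s.re ≤ 2) :
    ‖deriv f s‖ ≤ 16 * A * lg d s.im ^ 2 := by
  have hl1 := one_le_lg hd s.im
  have hr : 0 < 1 / (8 * lg d s.im) := by positivity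
  have hr8 : 1 / (8 * lg d s.im) ≤ 1 / 8 := by
    apply div_le_div_of_nonneg_left (by norm_num) (by norm_num) (by linarith)
  have h1 := Complex.norm_deriv_le_of_forall_mem_sphere_norm_le (c := s)
    (R := 1 / (8 * lg d s.im)) (C := A * (2 * lg d s.im)) (f := f) hr hf.diffContOnCl ?_
  · refine h1.trans (le_of_eq ?_)
    field_simp
    ring
  · intro w hw
    have hw' : ‖w - s‖ = 1 / (8 * lg d s.im) := by rwa [mem_sphere_iff_norm] at hw
    have hre : |w.re - s.re| ≤ 1 / (8 * lg d s.im) := by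
      rw [← hw', ← Complex.sub_re]; exact Complex.abs_re_le_norm _
    have him : |w.im - s.im| ≤ 1 / (8 * lg d s.im) := by
      rw [← hw', ← Complex.sub_im]; exact Complex.abs_im_le_norm _
    have him' : |w.im| ≤ |s.im| + 1 := by
      have := abs_sub_abs_le_abs_sub w.im s.im
      linarith
    have hlw := lg_le_two_mul hd him'
    have hlw0 := lg_pos hd w.im
    have h2 : 1 / (4 * lg d s.im) ≤ 1 / (2 * lg d w.im) := by
      apply div_le_div_of_nonneg_left (by norm_num) (by linarith) (by linarith)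
    have h3 : 1 / (4 * lg d s.im) = 1 / (8 * lg d s.im) + 1 / (8 * lg d s.im) := by
      field_simp; norm_num
    have hre' := abs_le.1 hre
    refine (hg w (by linarith) (by linarith)).trans ?_
    exact mul_le_mul_of_nonneg_left hlw hA

end Pool.Agent.SW
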