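import Pool.Agent.H41.SF.LOne

/-!
`L(1, χ) ≥ 1/(64 q)` for a real non-principal character (Gelfond's Lambert series argument).
-/

set_option autoImplicit false

namespace Pool.Agent.SW

open Finset Filter Topology ArithmeticFunction

/-! ### an inequality for geometric sums -/

lemma amgm_pow {u : ℝ} (h0 : 0 ≤ u) (a : ℕ) :
    0 ≤ 1 + a * u ^ (a + 1) - (a + 1) * u ^ a := by
  induction a with
  | zero => simp
  | succ a ih =>
    have h : (1 + ((a + 1 : ℕ) : ℝ) * u ^ (a + 1 + 1) - (((a + 1 : ℕ) : ℝ) + 1) * u ^ (a + 1)) =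
        (1 + a * u ^ (a + 1) - (a + 1) * u ^ a) + (a + 1) * u ^ a * (1 - u) ^ 2 := by
      push_cast; ring
    rw [h]
    positivity

lemma geom_ge {u : ℝ} (h0 : 0 ≤ u) (a : ℕ) :
    a * u ^ a ≤ u * ∑ i ∈ range a, (u ^ 2) ^ i := by
  induction a with
  | zero => simp
  | succ a ih =>
    have h1 := amgm_pow h0 a
    have h2 : u * ∑ i ∈ range (a + 1), (u ^ 2) ^ i = u + u ^ 2 * (u * ∑ i ∈ range a, (u ^ 2) ^ i) := by
      rw [geom_sum_succ]; ring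
    rw [h2]
    have h3 : u ^ 2 * (a * u ^ a) ≤ u ^ 2 * (u * ∑ i ∈ range a, (u ^ 2) ^ i) :=
      mul_le_mul_of_nonneg_left ih (by positivity)
    have h4 := mul_nonneg h0 h1
    push_cast
    have h5 : u * (1 + a * u ^ (a + 1) - (a + 1) * u ^ a) =
      u + u ^ 2 * (a * u ^ a) - (a + 1) * u ^ (a + 1) := by ring
    linarith

lemma geom_ge' {u : ℝ} (h0 : 0 < u) (a : ℕ) :
    (a + 1) * u ^ a ≤ ∑ i ∈ range (a + 1), (u ^ 2) ^ i := by
  have h := geom_ge h0.le (a + 1)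
  have h2 : ((a + 1 : ℕ) : ℝ) * u ^ (a + 1) = u * ((a + 1) * u ^ a) := by push_cast; ring
  rw [h2] at h
  exact le_of_mul_le_mul_left h h0

/-- the decreasing weights -/
noncomputable def bw (t : ℝ) (a : ℕ) : ℝ := 1 / (a * (1 - t)) - t ^ a / (1 - t ^ a)

lemma one_sub_pow_eq (t : ℝ) (a : ℕ) : 1 - t ^ a = (1 - t) * ∑ i ∈ range a, t ^ i := by
  have := geom_sum_mul t a
  linarith

lemma bw_anti {t : ℝ} (h0 : 0 < t) (h1 : t < 1) {a : ℕ} (ha : 1 ≤ a) : bw t (a + 1) ≤ bw t a := by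
  obtain ⟨u, hu0, rfl⟩ : ∃ u : ℝ, 0 < u ∧ t = u ^ 2 :=
    ⟨Real.sqrt t, Real.sqrt_pos.2 h0, (Real.sq_sqrt h0.le).symm⟩
  have hu1 : u < 1 := by nlinarith
  set G : ℝ := ∑ i ∈ range a, (u ^ 2) ^ i with hG
  have hG1 : ∑ i ∈ range (a + 1), (u ^ 2) ^ i = G + (u ^ 2) ^ a := Finset.sum_range_succ _ _
  have hGpos : 0 < G := Finset.sum_pos (fun i _ => by positivity) ⟨0, Finset.mem_range.2 ha⟩
  have ha0 : (0 : ℝ) < a := by exact_mod_cast ha
  have hA := geom_ge hu0.le a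
  have hB := geom_ge' hu0 a
  rw [← hG] at hA
  rw [hG1] at hB
  have hpu : 0 < u ^ a := by positivity
  have key : a * (a + 1) * (u ^ 2) ^ a ≤ G * (G + (u ^ 2) ^ a) := by
    have h2 : (a * u ^ a) * ((a + 1) * u ^ a) ≤ (u * G) * (G + (u ^ 2) ^ a) :=
      mul_le_mul hA hB (by positivity) (by positivity)
    have h3 : (u * G) * (G + (u ^ 2) ^ a) ≤ (1 * G) * (G + (u ^ 2) ^ a) := by gcongr
    calc a * (a + 1) * (u ^ 2) ^ a = (a * u ^ a) * ((a + 1) * u ^ a) := by ring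
      _ ≤ _ := h2
      _ ≤ _ := h3
      _ = _ := by ring
  unfold bw
  rw [one_sub_pow_eq (u ^ 2) a, one_sub_pow_eq (u ^ 2) (a + 1), hG1, ← hG]
  have h1t : 0 < 1 - u ^ 2 := by linarith
  have hGG : 0 < G + (u ^ 2) ^ a := by positivity
  have e1 : 1 / ((a : ℝ) * (1 - u ^ 2)) - (u ^ 2) ^ a / ((1 - u ^ 2) * G) -
      (1 / (((a + 1 : ℕ) : ℝ) * (1 - u ^ 2)) - (u ^ 2) ^ (a + 1) / ((1 - u ^ 2) * (G + (u ^ 2) ^ a)))
      = (G * (G + (u ^ 2) ^ a) - a * (a + 1) * (u ^ 2) ^ a *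
        (G + (u ^ 2) ^ a - u ^ 2 * G)) / (a * (a + 1) * (1 - u ^ 2) * G * (G + (u ^ 2) ^ a)) := by
    push_cast
    field_simp
    ring
  have e2 : G + (u ^ 2) ^ a - u ^ 2 * G = 1 := by
    have := one_sub_pow_eq (u ^ 2) a
    rw [← hG] at this
    linarith
  rw [e2, mul_one] at e1
  have e3 : 0 ≤ (G * (G + (u ^ 2) ^ a) - a * (a + 1) * (u ^ 2) ^ a) /
      (a * (a + 1) * (1 - u ^ 2) * G * (G + (u ^ 2) ^ a)) :=
    div_nonneg (by linarith) (by positivity)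
  linarith

lemma bw_nonneg {t : ℝ} (h0 : 0 < t) (h1 : t < 1) {a : ℕ} (ha : 1 ≤ a) : 0 ≤ bw t a := by
  set G : ℝ := ∑ i ∈ range a, t ^ i with hG
  have hGpos : 0 < G := Finset.sum_pos (fun i _ => by positivity) ⟨0, Finset.mem_range.2 ha⟩
  have ha0 : (0 : ℝ) < a := by exact_mod_cast ha
  have h1t : 0 < 1 - t := by linarith
  have h2 : a * t ^ a ≤ G := by
    have : ∑ i ∈ range a, t ^ a ≤ G := by
      refine Finset.sum_le_sum fun i hi => ?_
      exact pow_le_pow_of_le_one h0.le h1.le (Finset.mem_range.1 hi).le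
    simpa using this
  unfold bw
  rw [one_sub_pow_eq t a, ← hG, sub_nonneg, div_le_div_iff₀ (by positivity) (by positivity)]
  nlinarith [mul_le_mul_of_nonneg_left h2 h1t.le]

lemma bw_one {t : ℝ} (h1 : t < 1) : bw t 1 = 1 := by
  unfold bw
  have : 1 - t ≠ 0 := by linarith
  simp only [Nat.cast_one, one_mul, pow_one]
  rw [← sub_div, div_self this]

/-! ### the coefficients `1 * χ` -/

section char

variable {q : ℕ}

lemma zetaMul_prime_pow_even {χ : DirichletCharacter ℂ q} (hχ : χ ^ 2 = 1) {p : ℕ}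
    (hp : p.Prime) (k : ℕ) : ∃ r : ℝ, 1 ≤ r ∧ χ.zetaMul (p ^ (2 * k)) = r := by
  have h0 : χ.zetaMul (p ^ (2 * k)) = ∑ i ∈ range (2 * k + 1), χ (p : ZMod q) ^ i := by
    simp only [DirichletCharacter.zetaMul, toArithmeticFunction, coe_zeta_mul_apply, coe_mk,
      Nat.sum_divisors_prime_pow hp, pow_eq_zero_iff', hp.ne_zero, ne_eq, false_and, ↓reduceIte,
      Nat.cast_pow, map_pow]
  rw [h0]
  rcases MulChar.isQuadratic_iff_sq_eq_one.mpr hχ p with h | h | h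
  · exact ⟨1, le_refl 1, by rw [h, zero_geom_sum]; simp⟩
  · refine ⟨2 * k + 1, by linarith [Nat.cast_nonneg (α := ℝ) k], ?_⟩
    rw [h]
    simp
  · refine ⟨1, le_refl 1, ?_⟩
    rw [h, neg_one_geom_sum]
    simp

lemma zetaMul_sq {χ : DirichletCharacter ℂ q} (hχ : χ ^ 2 = 1) {m : ℕ} (hm : m ≠ 0) :
    1 ≤ (χ.zetaMul (m ^ 2)).re := by
  have h1 := χ.isMultiplicative_zetaMul.multiplicative_factorization _
    (pow_ne_zero 2 hm)
  have h2 : ∀ S : Finset ℕ, (∀ p ∈ S, p.Prime) →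
      ∃ r : ℝ, 1 ≤ r ∧ ∏ p ∈ S, χ.zetaMul (p ^ ((m ^ 2).factorization p)) = r := by
    intro S
    induction S using Finset.induction_on with
    | empty => intro _; exact ⟨1, le_refl 1, by simp⟩
    | insert p S hpS ih =>
      intro hS
      obtain ⟨r, hr, hr'⟩ := ih fun p' hp' => hS p' (Finset.mem_insert_of_mem hp')
      have h3 : (m ^ 2).factorization p = 2 * m.factorization p := by
        rw [Nat.factorization_pow]; simp
      obtain ⟨r', hr1, hr2⟩ := zetaMul_prime_pow_even hχ (hS p (Finset.mem_insert_self _ _))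
        (m.factorization p)
      refine ⟨r' * r, one_le_mul_of_one_le_of_one_le hr1 hr, ?_⟩
      rw [Finset.prod_insert hpS, hr', h3, hr2]
      push_cast
      rfl
  obtain ⟨r, hr, hr'⟩ := h2 (m ^ 2).factorization.support
    fun p hp => Nat.prime_of_mem_primeFactors (by simpa using hp)
  rw [h1, Finsupp.prod, hr']
  simpa using hr

lemma zetaMul_re_nonneg {χ : DirichletCharacter ℂ q} (hχ : χ ^ 2 = 1) (n : ℕ) :
    0 ≤ (χ.zetaMul n).re := by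
  have := DirichletCharacter.zetaMul_nonneg hχ n
  exact (Complex.le_def.1 this).1

lemma zetaMul_eq_sum (χ : DirichletCharacter ℂ q) {n : ℕ} (hn : n ≠ 0) :
    χ.zetaMul n = ∑ x ∈ n.divisorsAntidiagonal, χ (x.1 : ZMod q) := by
  rw [Nat.sum_divisorsAntidiagonal (f := fun i _ => χ (i : ZMod q))]
  simp only [DirichletCharacter.zetaMul, toArithmeticFunction, coe_zeta_mul_apply, coe_mk]
  refine Finset.sum_congr rfl fun i hi => ?_
  rw [if_neg]
  exact (Nat.pos_of_mem_divisors hi).ne'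

end char

section lambert

variable {q : ℕ} [NeZero q]

lemma lambert_summable (χ : DirichletCharacter ℂ q) {t : ℝ} (h0 : 0 < t) (h1 : t < 1) :
    Summable fun c : ℕ+ × ℕ+ => χ ((c.1 : ℕ) : ZMod q) * ((t : ℂ) ^ (c.1 * c.2 : ℕ)) := by
  have h := summable_prod_mul_pow (𝕜 := ℝ) 0 (r := t) (by rwa [Real.norm_of_nonneg h0.le])
  refine Summable.of_norm_bounded h fun c => ?_
  rw [norm_mul, norm_pow, Complex.norm_real, Real.norm_of_nonneg h0.le]
  simp only [pow_zero]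
  exact mul_le_mul_of_nonneg_right (χ.norm_le_one _) (by positivity)

lemma lambert_hasSum_right (χ : DirichletCharacter ℂ q) {t : ℝ} (h0 : 0 < t) (h1 : t < 1) :
    HasSum (fun n : ℕ+ => χ.zetaMul n * (t : ℂ) ^ (n : ℕ))
      (∑' c : ℕ+ × ℕ+, χ ((c.1 : ℕ) : ZMod q) * ((t : ℂ) ^ (c.1 * c.2 : ℕ))) := by
  have h := (lambert_summable χ h0 h1).hasSum
  have h2 := (sigmaAntidiagonalEquivProd.hasSum_iff).2 h
  refine HasSum.sigma h2 fun n => ?_
  have h3 := hasSum_fintype (fun c : Nat.divisorsAntidiagonal (n : ℕ) =>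
    ((fun c : ℕ+ × ℕ+ => χ ((c.1 : ℕ) : ZMod q) * ((t : ℂ) ^ (c.1 * c.2 : ℕ))) ∘
      ⇑sigmaAntidiagonalEquivProd) ⟨n, c⟩)
  convert h3 using 1
  have h4 : ∀ c : Nat.divisorsAntidiagonal (n : ℕ),
      ((fun c : ℕ+ × ℕ+ => χ ((c.1 : ℕ) : ZMod q) * ((t : ℂ) ^ (c.1 * c.2 : ℕ))) ∘
      ⇑sigmaAntidiagonalEquivProd) ⟨n, c⟩ = χ (c.1.1 : ZMod q) * (t : ℂ) ^ (n : ℕ) := by
    intro c
    have h5 := divisorsAntidiagonalFactors_eq c
    simp only [Function.comp, sigmaAntidiagonalEquivProd, Equiv.coe_fn_mk]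
    change χ (((divisorsAntidiagonalFactors n c).1 : ℕ) : ZMod q) *
      (t : ℂ) ^ (((divisorsAntidiagonalFactors n c).1 : ℕ) *
        ((divisorsAntidiagonalFactors n c).2 : ℕ)) = _
    have h6 : ((divisorsAntidiagonalFactors n c).1 : ℕ) *
        ((divisorsAntidiagonalFactors n c).2 : ℕ) = n := h5
    rw [h6]
    rfl
  rw [Finset.sum_congr rfl fun c _ => h4 c, ← Finset.sum_mul, zetaMul_eq_sum χ n.ne_zero]
  congr 1
  exact (Finset.sum_coe_sort (Nat.divisorsAntidiagonal (n : ℕ))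
    (fun x => χ (x.1 : ZMod q))).symm

lemma lambert_hasSum_left (χ : DirichletCharacter ℂ q) {t : ℝ} (h0 : 0 < t) (h1 : t < 1) :
    HasSum (fun n : ℕ => χ ((n + 1 : ℕ) : ZMod q) * ((t ^ (n + 1) / (1 - t ^ (n + 1)) : ℝ) : ℂ))
      (∑' c : ℕ+ × ℕ+, χ ((c.1 : ℕ) : ZMod q) * ((t : ℂ) ^ (c.1 * c.2 : ℕ))) := by
  have h := (lambert_summable χ h0 h1).hasSum
  have h2 : HasSum (fun n : ℕ+ => χ ((n : ℕ) : ZMod q) *
      ((t ^ (n : ℕ) / (1 - t ^ (n : ℕ)) : ℝ) : ℂ))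
      (∑' c : ℕ+ × ℕ+, χ ((c.1 : ℕ) : ZMod q) * ((t : ℂ) ^ (c.1 * c.2 : ℕ))) := by
    refine HasSum.prod_fiberwise h fun n => ?_
    refine HasSum.mul_left _ ?_
    have hn : 0 < (n : ℕ) := n.pos
    have hr : t ^ (n : ℕ) < 1 := pow_lt_one₀ h0.le h1 hn.ne'
    have h3 : HasSum (fun m : ℕ => t ^ (n : ℕ) * (t ^ (n : ℕ)) ^ m)
        (t ^ (n : ℕ) * (1 - t ^ (n : ℕ))⁻¹) :=
      (hasSum_geometric_of_lt_one (by positivity) hr).mul_left _
    have h4 := Complex.hasSum_ofReal.2 h3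
    rw [← div_eq_mul_inv] at h4
    refine (hasSum_pnat_iff_hasSum_succ (f := fun m : ℕ => ((t : ℂ) ^ ((n : ℕ) * m)))).2 ?_
    convert h4 using 2 with m
    push_cast
    ring
  exact hasSum_pnat_iff_hasSum_succ (f := fun n : ℕ => χ ((n : ℕ) : ZMod q) *
      ((t ^ (n : ℕ) / (1 - t ^ (n : ℕ)) : ℝ) : ℂ)) |>.1 h2

/-- the Lambert series is at most `L(1, χ)/(1-t) + q` -/
lemma lambert_upper (χ : DirichletCharacter ℂ q) (hχ : χ ≠ 1) {t : ℝ} (h0 : 0 < t) (h1 : t < 1) :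
    ‖DirichletCharacter.LFunction χ 1 * ((1 / (1 - t) : ℝ) : ℂ) -
      (∑' c : ℕ+ × ℕ+, χ ((c.1 : ℕ) : ZMod q) * ((t : ℂ) ^ (c.1 * c.2 : ℕ)))‖ ≤ q := by
  set S : ℂ := ∑' c : ℕ+ × ℕ+, χ ((c.1 : ℕ) : ZMod q) * ((t : ℂ) ^ (c.1 * c.2 : ℕ)) with hS
  have hq0 : (0 : ℝ) ≤ q := Nat.cast_nonneg q
  have hA : Tendsto (fun K : ℕ => ∑ i ∈ Ico 1 (K + 1), χ (i : ZMod q) *
      ((t ^ i / (1 - t ^ i) : ℝ) : ℂ)) atTop (𝓝 S) := by
    refine (lambert_hasSum_left χ h0 h1).tendsto_sum_nat.congr fun K => ?_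
    rw [Finset.sum_Ico_eq_sum_range]
    refine Finset.sum_congr (by simp) fun i _ => ?_
    rw [add_comm 1 i]
  have hB : Tendsto (fun K : ℕ => ∑ n ∈ Ico 1 (K + 1), (((n:ℝ)⁻¹ : ℝ) : ℂ) * χ (n : ZMod q)) atTop
      (𝓝 (DirichletCharacter.LFunction χ 1)) := by
    rw [tendsto_iff_norm_sub_tendsto_zero]
    have h2 : Tendsto (fun K : ℕ => (q : ℝ) / ((K : ℝ) + 1)) atTop (𝓝 0) :=
      tendsto_const_nhds.div_atTop (tendsto_atTop_add_const_right _ _ tendsto_natCast_atTop_atTop)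
    refine squeeze_zero (fun _ => norm_nonneg _) (fun K => ?_) h2
    rw [norm_sub_rev]
    have := Pool.Agent.H41.SF.LFunction_one_approx χ hχ (N := K + 1) (by omega)
    simpa using this
  have hC := (hB.mul_const (((1 / (1 - t) : ℝ) : ℂ))).sub hA
  refine le_of_tendsto hC.norm (Eventually.of_forall fun K => ?_)
  have h3 : (∑ n ∈ Ico 1 (K + 1), (((n:ℝ)⁻¹ : ℝ) : ℂ) * χ (n : ZMod q)) * ((1 / (1 - t) : ℝ) : ℂ) -
      ∑ i ∈ Ico 1 (K + 1), χ (i : ZMod q) * ((t ^ i / (1 - t ^ i) : ℝ) : ℂ) =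
      ∑ i ∈ Ico 1 (K + 1), ((bw t i : ℝ) : ℂ) * χ (i : ZMod q) := by
    rw [Finset.sum_mul, ← Finset.sum_sub_distrib]
    refine Finset.sum_congr rfl fun i hi => ?_
    have hi1 := (Finset.mem_Ico.1 hi).1
    unfold bw
    have : (1 : ℝ) / (i * (1 - t)) = (i : ℝ)⁻¹ * (1 / (1 - t)) := by
      rw [one_div, mul_inv, one_div]
    rw [this]
    push_cast
    ring
  rw [h3]
  have h4 := Pool.Agent.H41.SF.abel_bound (fun i => χ (i : ZMod q)) (bw t) 1 q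
    (fun n hn => bw_anti h0 h1 hn) (fun n hn => bw_nonneg h0 h1 hn)
    (fun k => Pool.Agent.H41.SF.norm_sum_Ico_le χ hχ 1 k) (K + 1) (by omega)
  rwa [bw_one h1, mul_one] at h4

/-- lower bound for the Lambert series of a real character -/
lemma lambert_lower {χ : DirichletCharacter ℂ q} (hχ : χ ^ 2 = 1) {t : ℝ} (h0 : 0 < t)
    (h1 : t < 1) (M : ℕ) :
    M * t ^ (M ^ 2) ≤
      (∑' c : ℕ+ × ℕ+, χ ((c.1 : ℕ) : ZMod q) * ((t : ℂ) ^ (c.1 * c.2 : ℕ))).re := by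
  have h := lambert_hasSum_right χ h0 h1
  have h2 := hasSum_pnat_iff_hasSum_succ (f := fun n : ℕ => χ.zetaMul n * (t : ℂ) ^ (n : ℕ)) |>.1 h
  have h3 := Complex.hasSum_re h2
  have hnn : ∀ n : ℕ, 0 ≤ (χ.zetaMul (n + 1) * (t : ℂ) ^ (n + 1)).re := by
    intro n
    rw [← Complex.ofReal_pow, Complex.re_mul_ofReal]
    exact mul_nonneg (zetaMul_re_nonneg hχ _) (by positivity)
  have h4 := sum_le_hasSum ((range M).image fun m => (m + 1) ^ 2 - 1) (fun n _ => hnn n) h3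
  refine le_trans ?_ h4
  have hinj : Set.InjOn (fun m : ℕ => (m + 1) ^ 2 - 1) (range M : Finset ℕ) := by
    intro a _ b _ hab
    have ha : 1 ≤ (a + 1) ^ 2 := Nat.one_le_pow _ _ (by omega)
    have hb : 1 ≤ (b + 1) ^ 2 := Nat.one_le_pow _ _ (by omega)
    have h5 : (a + 1) ^ 2 = (b + 1) ^ 2 := by
      simp only at hab
      omega
    have := Nat.pow_left_injective (n := 2) (by norm_num) h5
    omega
  rw [Finset.sum_image hinj]
  have h6 : ∀ m ∈ range M, t ^ (M ^ 2) ≤ (χ.zetaMul ((m + 1) ^ 2 - 1 + 1) *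
      (t : ℂ) ^ ((m + 1) ^ 2 - 1 + 1)).re := by
    intro m hm
    have hm1 : 1 ≤ (m + 1) ^ 2 := Nat.one_le_pow _ _ (by omega)
    rw [Nat.sub_add_cancel hm1, ← Complex.ofReal_pow, Complex.re_mul_ofReal]
    have h7 := zetaMul_sq hχ (m := m + 1) (by omega)
    have h8 : t ^ (M ^ 2) ≤ t ^ ((m + 1) ^ 2) := by
      apply pow_le_pow_of_le_one h0.le h1.le
      have := Finset.mem_range.1 hm
      exact Nat.pow_le_pow_left (by omega) 2
    have h9 : (0 : ℝ) < t ^ ((m + 1) ^ 2) := by positivity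
    nlinarith
  calc (M : ℝ) * t ^ (M ^ 2) = ∑ m ∈ range M, t ^ (M ^ 2) := by simp
    _ ≤ _ := Finset.sum_le_sum h6

/-- `L(1, χ) ≥ 1/(64 q)` for real `χ ≠ 1` -/
theorem LFunction_one_lower {χ : DirichletCharacter ℂ q} (hχ : χ ≠ 1) (hχ2 : χ ^ 2 = 1) :
    1 / (64 * (q : ℝ)) ≤ ‖DirichletCharacter.LFunction χ 1‖ := by
  have hq1 : (1 : ℝ) ≤ q := by exact_mod_cast NeZero.one_le
  set M : ℕ := 8 * q with hM
  have hMr : (M : ℝ) = 8 * q := by rw [hM]; push_cast; ring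
  set t : ℝ := 1 - 1 / (M : ℝ) ^ 2 with ht
  have hM2 : (64 : ℝ) ≤ (M : ℝ) ^ 2 := by rw [hMr]; nlinarith
  have hMpos : (0 : ℝ) < (M : ℝ) ^ 2 := by linarith
  have hinv : 1 / (M : ℝ) ^ 2 ≤ 1 / 64 := by
    apply div_le_div_of_nonneg_left (by norm_num) (by norm_num) hM2
  have hinv0 : 0 < 1 / (M : ℝ) ^ 2 := by positivity
  have h0 : 0 < t := by rw [ht]; linarith
  have h1 : t < 1 := by rw [ht]; linarith
  have hup := lambert_upper χ hχ h0 h1
  have hlo := lambert_lower hχ2 h0 h1 M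
  set S : ℂ := ∑' c : ℕ+ × ℕ+, χ ((c.1 : ℕ) : ZMod q) * ((t : ℂ) ^ (c.1 * c.2 : ℕ)) with hS
  have hpow : 1 / 4 ≤ t ^ (M ^ 2) := by
    have h2 : M ^ 2 = (32 * q ^ 2) * 2 := by rw [hM]; ring
    rw [h2, pow_mul]
    have h3 : 1 / 2 ≤ t ^ (32 * q ^ 2) := by
      have h4 := one_add_mul_le_pow (a := -(1 / (M : ℝ) ^ 2)) (by linarith) (32 * q ^ 2)
      have h5 : ((32 * q ^ 2 : ℕ) : ℝ) * -(1 / (M : ℝ) ^ 2) = -(1 / 2) := by
        rw [hMr]
        push_cast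
        field_simp
        norm_num
      rw [h5] at h4
      have h6 : (1 + -(1 / (M : ℝ) ^ 2)) = t := by rw [ht]; ring
      rw [h6] at h4
      linarith
    nlinarith
  have h7 : ‖S‖ ≤ ‖DirichletCharacter.LFunction χ 1‖ * (M : ℝ) ^ 2 + q := by
    have h8 : S = DirichletCharacter.LFunction χ 1 * ((1 / (1 - t) : ℝ) : ℂ) -
      (DirichletCharacter.LFunction χ 1 * ((1 / (1 - t) : ℝ) : ℂ) - S) := by ring
    have h9 : 1 / (1 - t) = (M : ℝ) ^ 2 := by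
      rw [ht, sub_sub_cancel, one_div_one_div]
    rw [h8]
    refine (norm_sub_le _ _).trans (add_le_add (le_of_eq ?_) hup)
    rw [norm_mul, h9, Complex.norm_real, Real.norm_of_nonneg hMpos.le]
  have h10 := Complex.re_le_norm S
  have h11 : (M : ℝ) * (1 / 4) ≤ M * t ^ (M ^ 2) := by gcongr
  have h12 : (q : ℝ) ≤ ‖DirichletCharacter.LFunction χ 1‖ * (64 * (q : ℝ) ^ 2) := by
    have h13 : (M : ℝ) ^ 2 = 64 * (q : ℝ) ^ 2 := by rw [hMr]; ring
    rw [h13] at h7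
    rw [hMr] at h11 hlo
    linarith
  rw [div_le_iff₀ (by positivity)]
  have h14 : ‖DirichletCharacter.LFunction χ 1‖ * (64 * (q : ℝ) ^ 2) =
      q * (‖DirichletCharacter.LFunction χ 1‖ * (64 * (q : ℝ))) := by ring
  rw [h14] at h12
  have h15 : (q : ℝ) * 1 ≤ q * (‖DirichletCharacter.LFunction χ 1‖ * (64 * (q : ℝ))) := by
    linarith
  exact le_of_mul_le_mul_left h15 (by linarith)

end lambert

end Pool.Agent.SW
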