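import Pool.Agent.H20.SW.Growth
import Pool.Agent.H20.SW.LOne

/-!
Lower bounds for `L(1 + iy, χ)` and `ζ(1 + iy)` (the `3-4-1` inequality).
-/

set_option autoImplicit false

namespace Pool.Agent.SW

open Complex Finset Filter Topology Metric

/-! ### the real variable form of the `3-4-1` argument -/

lemma abs341 {a C3 D P : ℝ} (ha : 0 ≤ a) (hC : 1 ≤ C3) (hD : 1 ≤ D) (hP : 1 ≤ P)
    (h : ∀ x, 0 < x → x ≤ 1 → ∃ b, 0 ≤ b ∧ b ≤ a + D * x ∧ x ^ 3 ≤ C3 * b ^ 4 * P) :
    1 / (32 * C3 * D ^ 3 * P) ≤ a := by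
  by_contra hlt
  push Not at hlt
  have hD3 : 1 ≤ D ^ 3 := one_le_pow₀ hD
  have hD4 : 1 ≤ D ^ 4 := one_le_pow₀ hD
  have hden : 1 ≤ 32 * C3 * D ^ 4 * P := by
    have h1 : 1 ≤ C3 * D ^ 4 := one_le_mul_of_one_le_of_one_le hC hD4
    have h2 : 1 ≤ C3 * D ^ 4 * P := one_le_mul_of_one_le_of_one_le h1 hP
    linarith
  set x : ℝ := 1 / (32 * C3 * D ^ 4 * P) with hx
  have hx0 : 0 < x := by positivity
  have hx1 : x ≤ 1 := by
    rw [hx, div_le_one (by linarith)]
    exact hden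
  obtain ⟨b, hb0, hb1, hb2⟩ := h x hx0 hx1
  have hDx : D * x = 1 / (32 * C3 * D ^ 3 * P) := by
    rw [hx]
    field_simp
  rw [← hDx] at hlt
  have hb3 : b ≤ 2 * (D * x) := by linarith
  have hb4 : b ^ 4 ≤ (2 * (D * x)) ^ 4 := pow_le_pow_left₀ hb0 hb3 4
  have h1 : x ^ 3 ≤ C3 * (2 * (D * x)) ^ 4 * P := by
    refine hb2.trans ?_
    gcongr
  have h2 : C3 * (2 * (D * x)) ^ 4 * P = x ^ 3 * (16 * (C3 * D ^ 4 * P * x)) := by ring
  have h3 : C3 * D ^ 4 * P * x = 1 / 32 := by
    rw [hx]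
    field_simp
  rw [h2, h3] at h1
  have h4 : 0 < x ^ 3 := by positivity
  linarith

/-! ### bounds to the right of one -/

lemma lg_one_zero_le : lg 1 0 ≤ 2 := by
  unfold lg
  rw [abs_zero, one_mul, zero_add]
  have h := Real.log_le_sub_one_of_pos (show (0 : ℝ) < 3 by norm_num)
  linarith

lemma norm_zeta_real_le {x : ℝ} (h0 : 0 < x) (h1 : x ≤ 1) :
    ‖riemannZeta ((1 + x : ℝ) : ℂ)‖ ≤ 49 / x := by
  have hne : ((1 + x : ℝ) : ℂ) ≠ 1 := by
    intro h
    have : (1 + x : ℝ) = 1 := by exact_mod_cast h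
    linarith
  rw [riemannZeta_eq_inv_sub_add hne]
  have h2 : ‖riemannZeta₀ ((1 + x : ℝ) : ℂ)‖ ≤ 48 := by
    refine (norm_zeta₀_le' (s := ((1 + x : ℝ) : ℂ)) ?_ ?_).trans ?_
    · rw [ofReal_im, ofReal_re]
      have := lg_pos (le_refl (1 : ℝ)) 0
      have h3 : 0 ≤ 1 / (2 * lg 1 0) := by positivity
      linarith
    · rw [ofReal_re]; linarith
    · rw [ofReal_im]
      have := lg_one_zero_le
      linarith
  have h3 : ‖(((1 + x : ℝ) : ℂ) - 1)⁻¹‖ = 1 / x := by
    have : (((1 + x : ℝ) : ℂ) - 1) = (x : ℂ) := by push_cast; ring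
    rw [this, norm_inv, Complex.norm_real, Real.norm_of_nonneg h0.le, one_div]
  refine (norm_add_le _ _).trans ?_
  rw [h3]
  have h4 : (48 : ℝ) ≤ 48 / x := by
    rw [le_div_iff₀ h0]; linarith
  calc 1 / x + ‖riemannZeta₀ ((1 + x : ℝ) : ℂ)‖ ≤ 1 / x + 48 / x := by linarith
    _ = 49 / x := by ring

/-- trivial bound for a Dirichlet series with bounded coefficients -/
lemma norm_LSeries_le_of_bounded {f : ℕ → ℂ} (hf : ∀ n, ‖f n‖ ≤ 1) {s : ℂ} (hs : 1 < s.re) :
    ‖LSeries f s‖ ≤ ‖riemannZeta ((s.re : ℝ) : ℂ)‖ := by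
  have hs' : 1 < ((s.re : ℝ) : ℂ).re := by simpa using hs
  have hsum1 : LSeriesSummable (1 : ℕ → ℂ) ((s.re : ℝ) : ℂ) := LSeriesSummable_one_iff.mpr hs'
  have hle : ∀ n, ‖LSeries.term f s n‖ ≤ ‖LSeries.term (1 : ℕ → ℂ) ((s.re : ℝ) : ℂ) n‖ := by
    intro n
    rw [LSeries.norm_term_eq, LSeries.norm_term_eq]
    split_ifs with hn
    · exact le_refl _
    · rw [ofReal_re, Pi.one_apply, norm_one]
      gcongr
      exact hf n
  have hsum2 : Summable fun n => ‖LSeries.term (1 : ℕ → ℂ) ((s.re : ℝ) : ℂ) n‖ := hsum1.norm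
  have h1 : ‖LSeries f s‖ ≤ ∑' n, ‖LSeries.term (1 : ℕ → ℂ) ((s.re : ℝ) : ℂ) n‖ :=
    tsum_of_norm_bounded hsum2.hasSum hle
  have h2 : (((∑' n, ‖LSeries.term (1 : ℕ → ℂ) ((s.re : ℝ) : ℂ) n‖) : ℝ) : ℂ) =
      riemannZeta ((s.re : ℝ) : ℂ) := by
    rw [← LSeries_one_eq_riemannZeta hs', LSeries, Complex.ofReal_tsum]
    refine tsum_congr fun n => ?_
    rw [LSeries.norm_term_eq]
    rcases eq_or_ne n 0 with rfl | hn
    · simp
    · rw [if_neg hn, LSeries.term_of_ne_zero hn, ofReal_re, Pi.one_apply, norm_one, one_div,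
        one_div, ofReal_inv, Complex.ofReal_cpow (Nat.cast_nonneg n)]
      simp
  have h3 : ‖riemannZeta ((s.re : ℝ) : ℂ)‖ =
      ∑' n, ‖LSeries.term (1 : ℕ → ℂ) ((s.re : ℝ) : ℂ) n‖ := by
    rw [← h2, Complex.norm_real, Real.norm_of_nonneg (tsum_nonneg fun _ => norm_nonneg _)]
  rw [h3]
  exact h1

/-! ### the Euler factors of the principal character -/

lemma prod_one_add_inv_le {d : ℕ} (hd : d ≠ 0) :
    ∏ p ∈ d.primeFactors, (1 + (p : ℝ)⁻¹) ≤ 1 + Real.log d := by
  have h1 : ∏ p ∈ d.primeFactors, (1 + (p : ℝ)⁻¹) =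
      ∑ S ∈ d.primeFactors.powerset, ∏ p ∈ S, (p : ℝ)⁻¹ := by
    rw [Finset.prod_one_add]
  have h2 : ∑ S ∈ d.primeFactors.powerset, ∏ p ∈ S, (p : ℝ)⁻¹ =
      ∑ m ∈ d.primeFactors.powerset.image (fun S => ∏ p ∈ S, p), ((m : ℕ) : ℝ)⁻¹ := by
    rw [Finset.sum_image]
    · refine Finset.sum_congr rfl fun S _ => ?_
      push_cast
      rw [Finset.prod_inv_distrib]
    · intro S hS S' hS' h
      have hp : ∀ S ∈ d.primeFactors.powerset, (∏ p ∈ S, p).primeFactors = S := by
        intro S hS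
        exact Nat.primeFactors_prod fun p hp =>
          Nat.prime_of_mem_primeFactors (Finset.mem_powerset.1 hS hp)
      rw [← hp S hS, ← hp S' hS']
      exact congrArg _ h
  have h3 : ∑ m ∈ d.primeFactors.powerset.image (fun S => ∏ p ∈ S, p), ((m : ℕ) : ℝ)⁻¹ ≤
      ∑ m ∈ Finset.Icc 1 d, ((m : ℕ) : ℝ)⁻¹ := by
    refine Finset.sum_le_sum_of_subset_of_nonneg ?_ fun i _ _ => by positivity
    intro m hm
    obtain ⟨S, hS, rfl⟩ := Finset.mem_image.1 hm
    have hdvd : (∏ p ∈ S, p) ∣ d :=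
      (Finset.prod_dvd_prod_of_subset _ _ _ (Finset.mem_powerset.1 hS)).trans
        (Nat.prod_primeFactors_dvd d)
    exact Finset.mem_Icc.2 ⟨Nat.pos_of_dvd_of_pos hdvd (Nat.pos_of_ne_zero hd),
      Nat.le_of_dvd (Nat.pos_of_ne_zero hd) hdvd⟩
  have h4 := harmonic_le_one_add_log d
  rw [harmonic_eq_sum_Icc] at h4
  push_cast at h4
  rw [h1, h2]
  exact h3.trans h4

lemma norm_trivChar_le {d : ℕ} [NeZero d] {s : ℂ} (hs : 1 < s.re) :
    ‖DirichletCharacter.LFunction (1 : DirichletCharacter ℂ d) s‖ ≤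
      (1 + Real.log d) * ‖riemannZeta s‖ := by
  have hs1 : s ≠ 1 := by intro h; rw [h, one_re] at hs; exact lt_irrefl _ hs
  have h := DirichletCharacter.LFunctionTrivChar_eq_mul_riemannZeta (N := d) hs1
  rw [DirichletCharacter.LFunctionTrivChar] at h
  rw [h, norm_mul, norm_prod]
  refine mul_le_mul_of_nonneg_right ?_ (norm_nonneg _)
  refine le_trans ?_ (prod_one_add_inv_le (NeZero.ne d))
  refine Finset.prod_le_prod (fun _ _ => norm_nonneg _) fun p hp => ?_
  have hpp := Nat.prime_of_mem_primeFactors hp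
  refine (norm_sub_le _ _).trans ?_
  rw [norm_one, norm_cast_cpow hpp.one_lt.le]
  have hp1 : (1 : ℝ) ≤ p := by exact_mod_cast hpp.one_lt.le
  have : (p : ℝ) ^ (-s.re) ≤ (p : ℝ)⁻¹ := by
    rw [← Real.rpow_neg_one]
    exact Real.rpow_le_rpow_of_exponent_le hp1 (by linarith)
  linarith

lemma norm_zeta_le_of_im {s : ℂ} (hs : 1 < s.re) (hs2 : s.re ≤ 2) (him : s.im ≠ 0) :
    ‖riemannZeta s‖ ≤ 1 / |s.im| + 24 * lg 1 s.im := by
  have hs1 : s ≠ 1 := by intro h; rw [h, one_re] at hs; exact lt_irrefl _ hs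
  rw [riemannZeta_eq_inv_sub_add hs1]
  have hl := lg_pos (le_refl (1 : ℝ)) s.im
  have h3 : 0 ≤ 1 / (2 * lg 1 s.im) := by positivity
  have h1 := norm_zeta₀_le' (s := s) (by linarith) (by linarith)
  refine (norm_add_le _ _).trans (add_le_add ?_ h1)
  rw [norm_inv, one_div]
  have h4 : |s.im| ≤ ‖s - 1‖ := by
    have := Complex.abs_im_le_norm (s - 1)
    simpa using this
  have h5 : 0 < |s.im| := abs_pos.2 him
  exact inv_anti₀ h5 h4

/-! ### non-principal characters -/

section char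

variable {q : ℕ} [NeZero q]

lemma norm_deriv_LFunction_le (χ : DirichletCharacter ℂ q) (hχ : χ ≠ 1) {s : ℂ}
    (hs : 1 - 1 / (8 * lg q s.im) ≤ s.re) (hs2 : s.re ≤ 2) :
    ‖deriv (DirichletCharacter.LFunction χ) s‖ ≤ 384 * lg q s.im ^ 2 := by
  have h := norm_deriv_le_of_growth (DirichletCharacter.differentiable_LFunction hχ)
    (d := q) (A := 24) one_le_q (by norm_num)
    (fun s h1 h3 => norm_LFunction_le χ hχ h1 h3) hs hs2
  linarith

/-- moving horizontally from the line `Re s = 1` -/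
lemma norm_LFunction_horizontal (χ : DirichletCharacter ℂ q) (hχ : χ ≠ 1) (y : ℝ) {x : ℝ}
    (hx0 : 0 < x) (hx1 : x ≤ 1) :
    ‖DirichletCharacter.LFunction χ (1 + x + I * y)‖ ≤
      ‖DirichletCharacter.LFunction χ (1 + I * y)‖ + 384 * lg q y ^ 2 * x := by
  have hl := lg_pos (one_le_q (q := q)) y
  have hconv : Convex ℝ {w : ℂ | w.im = y ∧ 1 ≤ w.re ∧ w.re ≤ 2} := by
    intro a ha b hb u v hu hv huv
    refine ⟨?_, ?_, ?_⟩
    · simp only [add_im, smul_im, ha.1, hb.1, smul_eq_mul]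
      rw [← add_mul, huv, one_mul]
    · simp only [add_re, smul_re, smul_eq_mul]
      nlinarith [ha.2.1, hb.2.1]
    · simp only [add_re, smul_re, smul_eq_mul]
      nlinarith [ha.2.2, hb.2.2]
  have h := hconv.norm_image_sub_le_of_norm_deriv_le (f := DirichletCharacter.LFunction χ)
    (C := 384 * lg q y ^ 2) (x := 1 + I * y) (y := 1 + x + I * y)
    (fun w _ => DirichletCharacter.differentiable_LFunction hχ w) ?_ ?_ ?_
  · have h1 : (1 + x + I * y : ℂ) - (1 + I * y) = (x : ℂ) := by ring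
    rw [h1, Complex.norm_real, Real.norm_of_nonneg hx0.le] at h
    have h2 := norm_add_le (DirichletCharacter.LFunction χ (1 + x + I * y) -
      DirichletCharacter.LFunction χ (1 + I * y)) (DirichletCharacter.LFunction χ (1 + I * y))
    rw [sub_add_cancel] at h2
    linarith
  · intro w hw
    have h3 : 0 ≤ 1 / (8 * lg q y) := by positivity
    have := norm_deriv_LFunction_le χ hχ (s := w) (by rw [hw.1]; linarith [hw.2.1]) hw.2.2
    rwa [hw.1] at this
  · simp
  · simp; constructor <;> linarith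

/-- moving vertically from `1` -/
lemma norm_LFunction_vertical (χ : DirichletCharacter ℂ q) (hχ : χ ≠ 1) (y : ℝ) :
    ‖DirichletCharacter.LFunction χ 1‖ ≤
      ‖DirichletCharacter.LFunction χ (1 + I * y)‖ + 384 * lg q y ^ 2 * |y| := by
  have hl := lg_pos (one_le_q (q := q)) y
  have hconv : Convex ℝ {w : ℂ | w.re = 1 ∧ |w.im| ≤ |y|} := by
    intro a ha b hb u v hu hv huv
    refine ⟨?_, ?_⟩
    · simp only [add_re, smul_re, ha.1, hb.1, smul_eq_mul]
      linarith
    · simp only [add_im, smul_im, smul_eq_mul]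
      refine (abs_add_le _ _).trans ?_
      rw [abs_mul, abs_mul, abs_of_nonneg hu, abs_of_nonneg hv]
      have h1 := mul_le_mul_of_nonneg_left ha.2 hu
      have h2 := mul_le_mul_of_nonneg_left hb.2 hv
      have h3 : |y| = u * |y| + v * |y| := by rw [← add_mul, huv, one_mul]
      linarith
  have h := hconv.norm_image_sub_le_of_norm_deriv_le (f := DirichletCharacter.LFunction χ)
    (C := 384 * lg q y ^ 2) (x := 1 + I * y) (y := 1)
    (fun w _ => DirichletCharacter.differentiable_LFunction hχ w) ?_ ?_ ?_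
  · have h1 : (1 : ℂ) - (1 + I * y) = -(I * (y : ℂ)) := by ring
    rw [h1, norm_neg, norm_mul, norm_I, one_mul, Complex.norm_real, Real.norm_eq_abs] at h
    have h2 := norm_add_le (DirichletCharacter.LFunction χ 1 -
      DirichletCharacter.LFunction χ (1 + I * y)) (DirichletCharacter.LFunction χ (1 + I * y))
    rw [sub_add_cancel] at h2
    linarith
  · intro w hw
    have hlw := lg_pos (one_le_q (q := q)) w.im
    have hlw2 := lg_mono (one_le_q (q := q)) hw.2
    have h3 : 0 ≤ 1 / (8 * lg q w.im) := by positivity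
    have := norm_deriv_LFunction_le χ hχ (s := w) (by rw [hw.1]; linarith)
      (by rw [hw.1]; norm_num)
    refine this.trans ?_
    gcongr
  · simp
  · simp

/-- the `3-4-1` inequality with the principal factor estimated -/
lemma three_four_one (χ : DirichletCharacter ℂ q) (y : ℝ) {x : ℝ} (hx0 : 0 < x) (hx1 : x ≤ 1) :
    x ^ 3 ≤ 49 ^ 3 * ‖DirichletCharacter.LFunction χ (1 + x + I * y)‖ ^ 4 *
      ‖DirichletCharacter.LFunction (χ ^ 2) (1 + x + 2 * I * y)‖ := by
  have h := DirichletCharacter.norm_LSeries_product_ge_one χ hx0 y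
  have hre1 : 1 < (1 + x + I * y : ℂ).re := by simp; linarith
  have hre2 : 1 < (1 + x + 2 * I * y : ℂ).re := by simp; linarith
  have hre0 : 1 < (1 + x : ℂ).re := by simp; linarith
  rw [norm_mul, norm_mul, norm_pow, norm_pow] at h
  rw [DirichletCharacter.LFunction_eq_LSeries χ hre1,
    DirichletCharacter.LFunction_eq_LSeries (χ ^ 2) hre2]
  have h0 : ‖LSeries (fun n => (1 : DirichletCharacter ℂ q) (n : ZMod q)) (1 + x : ℂ)‖ ≤ 49 / x := by
    refine (norm_LSeries_le_of_bounded (fun n => DirichletCharacter.norm_le_one _ _) hre0).trans ?_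
    have : (1 + x : ℂ).re = 1 + x := by simp
    rw [this]
    exact norm_zeta_real_le hx0 hx1
  set a := ‖LSeries (fun n => (1 : DirichletCharacter ℂ q) (n : ZMod q)) (1 + x : ℂ)‖
  set b := ‖LSeries (fun n => χ (n : ZMod q)) (1 + x + I * y : ℂ)‖
  set c := ‖LSeries (fun n => (χ ^ 2) (n : ZMod q)) (1 + x + 2 * I * y : ℂ)‖
  have ha : 0 ≤ a := norm_nonneg _
  have hb : 0 ≤ b := norm_nonneg _
  have hc : 0 ≤ c := norm_nonneg _
  have h1 : 1 ≤ (49 / x) ^ 3 * b ^ 4 * c := by
    refine le_trans h ?_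
    gcongr
  have h2 : (49 / x) ^ 3 * b ^ 4 * c = 49 ^ 3 * b ^ 4 * c / x ^ 3 := by
    field_simp
  rw [h2, le_div_iff₀ (by positivity), one_mul] at h1
  exact h1

/-- uniform lower bound on the line `Re s = 1` -/
theorem LFunction_lower : ∃ K : ℝ, 1 ≤ K ∧ ∀ (q : ℕ) [NeZero q] (χ : DirichletCharacter ℂ q),
    χ ≠ 1 → ∀ y : ℝ, 1 / (K * q * lg q y ^ 9) ≤
      ‖DirichletCharacter.LFunction χ (1 + I * y)‖ := by
  refine ⟨32 * 49 ^ 3 * 384 ^ 3 * 24624, by norm_num, ?_⟩
  intro q _ χ hχ y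
  have hq := one_le_q (q := q)
  have hl := one_le_lg hq y
  have hl2 : 1 ≤ lg q y ^ 2 := one_le_pow₀ hl
  have hl3 : 1 ≤ lg q y ^ 3 := one_le_pow₀ hl
  have hD : 1 ≤ 384 * lg q y ^ 2 := by linarith
  have main : ∀ P : ℝ, 1 ≤ P → P ≤ 24624 * (q * lg q y ^ 3) →
      (∀ x : ℝ, 0 < x → x ≤ 1 →
        ‖DirichletCharacter.LFunction (χ ^ 2) (1 + x + 2 * I * y)‖ ≤ P) →
      1 / (32 * 49 ^ 3 * 384 ^ 3 * 24624 * q * lg q y ^ 9) ≤
      ‖DirichletCharacter.LFunction χ (1 + I * y)‖ := by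
    intro P hP1 hP2 hP
    have h := abs341 (norm_nonneg (DirichletCharacter.LFunction χ (1 + I * y)))
      (C3 := 49 ^ 3) (by norm_num) hD hP1 (fun x hx0 hx1 =>
        ⟨‖DirichletCharacter.LFunction χ (1 + x + I * y)‖, norm_nonneg _,
          norm_LFunction_horizontal χ hχ y hx0 hx1, ?_⟩)
    · refine le_trans ?_ h
      apply one_div_le_one_div_of_le (by positivity)
      calc 32 * 49 ^ 3 * (384 * lg q y ^ 2) ^ 3 * P ≤
          32 * 49 ^ 3 * (384 * lg q y ^ 2) ^ 3 * (24624 * (q * lg q y ^ 3)) := by gcongr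
        _ = 32 * 49 ^ 3 * 384 ^ 3 * 24624 * q * lg q y ^ 9 := by ring
    · refine (three_four_one χ y hx0 hx1).trans ?_
      gcongr
      exact hP x hx0 hx1
  by_cases hχ2 : χ ^ 2 = 1
  · by_cases hy : |y| ≤ 1 / (128 * q * (384 * lg q y ^ 2))
    · -- close to the real axis
      have h1 := LFunction_one_lower hχ hχ2
      have h2 := norm_LFunction_vertical χ hχ y
      have h3 : 384 * lg q y ^ 2 * |y| ≤ 1 / (128 * (q : ℝ)) := by
        calc 384 * lg q y ^ 2 * |y| ≤
            384 * lg q y ^ 2 * (1 / (128 * q * (384 * lg q y ^ 2))) := by gcongr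
          _ = 1 / (128 * (q : ℝ)) := by field_simp
      have h4 : 1 / (64 * (q : ℝ)) = 1 / (128 * q) + 1 / (128 * q) := by field_simp; norm_num
      have h5 : 1 / (32 * 49 ^ 3 * 384 ^ 3 * 24624 * q * lg q y ^ 9) ≤ 1 / (128 * (q : ℝ)) := by
        apply one_div_le_one_div_of_le (by positivity)
        have h6 : 1 ≤ lg q y ^ 9 := one_le_pow₀ hl
        calc 128 * (q : ℝ) ≤ 32 * 49 ^ 3 * 384 ^ 3 * 24624 * q * 1 := by nlinarith
          _ ≤ 32 * 49 ^ 3 * 384 ^ 3 * 24624 * q * lg q y ^ 9 := by gcongr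
      linarith
    · push Not at hy
      have hy0 : 0 < |y| := lt_of_le_of_lt (by positivity) hy
      refine main (24624 * (q * lg q y ^ 3)) ?_ (le_refl _) fun x hx0 hx1 => ?_
      · have : 1 ≤ q * lg q y ^ 3 := one_le_mul_of_one_le_of_one_le hq hl3
        linarith
      · rw [hχ2]
        have hre : 1 < (1 + x + 2 * I * y : ℂ).re := by simp; linarith
        refine (norm_trivChar_le hre).trans ?_
        have him : (1 + x + 2 * I * y : ℂ).im = 2 * y := by simp
        have hz := norm_zeta_le_of_im hre (by simp; linarith) (by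
          rw [him]
          have : y ≠ 0 := abs_pos.1 hy0
          simpa using this)
        rw [him] at hz
        have h1 : 1 / |2 * y| ≤ 24576 * (q * lg q y ^ 2) := by
          rw [abs_mul, abs_two, div_le_iff₀ (by positivity)]
          have h2 : 1 / (128 * q * (384 * lg q y ^ 2)) * (24576 * (q * lg q y ^ 2) * 2) = 1 := by
            field_simp; norm_num
          calc (1 : ℝ) = 1 / (128 * q * (384 * lg q y ^ 2)) * (24576 * (q * lg q y ^ 2) * 2) :=
                h2.symm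
            _ ≤ |y| * (24576 * (q * lg q y ^ 2) * 2) := by gcongr
            _ = _ := by ring
        have h2 : lg 1 (2 * y) ≤ 2 * lg q y :=
          (lg_mono_left (le_refl _) hq).trans (lg_two_mul_le hq y)
        have h3 : 1 + Real.log q ≤ lg q y := by
          have h4 : lg q y = Real.log q + lg 1 y := by
            unfold lg
            have : (0 : ℝ) ≤ |y| := abs_nonneg y
            rw [Real.log_mul (by positivity) (by positivity), one_mul]
          have h5 := one_le_lg (le_refl (1 : ℝ)) y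
          linarith
        have h6 : ‖riemannZeta (1 + x + 2 * I * y)‖ ≤ 24624 * (q * lg q y ^ 2) := by
          have h7 : lg q y ≤ q * lg q y ^ 2 := by nlinarith
          linarith
        have h8 : 0 ≤ 1 + Real.log (q : ℝ) := by
          have := Real.log_nonneg hq
          linarith
        calc (1 + Real.log q) * ‖riemannZeta (1 + x + 2 * I * y)‖ ≤
            lg q y * (24624 * (q * lg q y ^ 2)) := by gcongr
          _ = 24624 * (q * lg q y ^ 3) := by ring
  · refine main (48 * lg q y) (by linarith) ?_ fun x hx0 hx1 => ?_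
    · have h1 : lg q y ≤ q * lg q y ^ 3 := by
        have : lg q y ^ 3 = lg q y * lg q y ^ 2 := by ring
        nlinarith
      nlinarith
    · have him : (1 + x + 2 * I * y : ℂ).im = 2 * y := by simp
      have hre : (1 + x + 2 * I * y : ℂ).re = 1 + x := by simp
      have hl' := lg_pos hq (2 * y)
      have h3 : 0 ≤ 1 / (2 * lg q (2 * y)) := by positivity
      have h1 := norm_LFunction_le (χ ^ 2) hχ2 (s := 1 + x + 2 * I * y)
        (by rw [him, hre]; linarith) (by rw [hre]; linarith)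
      rw [him] at h1
      have := lg_two_mul_le hq y
      linarith

end char

end Pool.Agent.SW
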