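import Pool.Agent.H20.SW.Lower

/-!
Lower bound for `(s-1) ζ(s)` on the line `Re s = 1`.
-/

set_option autoImplicit false

namespace Pool.Agent.SW

open Complex Finset Filter Topology Metric

lemma zeta₁_ne_zero {s : ℂ} (hs : 1 ≤ s.re) : riemannZeta₁ s ≠ 0 := by
  rcases eq_or_ne s 1 with rfl | hs1
  · simp
  · intro h
    have h2 := riemannZeta_eq_inv_sub_mul hs1
    rw [h, mul_zero] at h2
    exact riemannZeta_ne_zero_of_one_le_re hs h2

/-- the compact rectangle near `1` -/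
def rect : Set ℂ := {s | (1 ≤ s.re ∧ s.re ≤ 2) ∧ (-1 ≤ s.im ∧ s.im ≤ 1)}

lemma rect_compact : IsCompact rect := by
  have : rect = Set.Icc (1 : ℝ) 2 ×ℂ Set.Icc (-1 : ℝ) 1 := by
    ext s
    simp [rect, Complex.mem_reProdIm, Set.mem_Icc]
  rw [this]
  exact isCompact_Icc.reProdIm isCompact_Icc

lemma zeta₁_rect : ∃ c : ℝ, 0 < c ∧ ∀ s ∈ rect, c ≤ ‖riemannZeta₁ s‖ := by
  obtain ⟨s₀, hs₀, hmin⟩ := rect_compact.exists_isMinOn ⟨1, by simp [rect]⟩
    (f := fun s => ‖riemannZeta₁ s‖)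
    (differentiable_riemannZeta₁.continuous.norm.continuousOn)
  exact ⟨‖riemannZeta₁ s₀‖, norm_pos_iff.2 (zeta₁_ne_zero hs₀.1.1), fun s hs => hmin hs⟩

lemma deriv_zeta₁ (s : ℂ) :
    deriv riemannZeta₁ s = riemannZeta₀ s + (s - 1) * deriv riemannZeta₀ s := by
  have h : riemannZeta₁ = fun s => 1 + (s - 1) * riemannZeta₀ s := by
    funext s; rfl
  have h1 : HasDerivAt (fun s : ℂ => 1 + (s - 1) * riemannZeta₀ s)
      (1 * riemannZeta₀ s + (s - 1) * deriv riemannZeta₀ s) s := by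
    refine HasDerivAt.const_add _ ?_
    exact ((hasDerivAt_id s).sub_const 1).mul (differentiable_riemannZeta₀ s).hasDerivAt
  rw [h, h1.deriv]
  ring

lemma norm_deriv_zeta₁_le {s : ℂ} (hs : 1 - 1 / (8 * lg 1 s.im) ≤ s.re) (hs2 : s.re ≤ 2) :
    ‖deriv riemannZeta₁ s‖ ≤ 408 * (|s.im| + 3) * lg 1 s.im ^ 2 := by
  have hl := one_le_lg (le_refl (1 : ℝ)) s.im
  have h1 := norm_deriv_le_of_growth differentiable_riemannZeta₀ (d := 1) (A := 24) (le_refl _)
    (by norm_num) (fun s h1 h3 => norm_zeta₀_le' h1 h3) hs hs2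
  have h8 : 1 / (8 * lg 1 s.im) ≤ 1 / 8 := by
    apply div_le_div_of_nonneg_left (by norm_num) (by norm_num) (by linarith)
  have h4 : 1 / (8 * lg 1 s.im) ≤ 1 / (2 * lg 1 s.im) := by
    apply div_le_div_of_nonneg_left (by norm_num) (by linarith) (by linarith)
  have h0 := norm_zeta₀_le' (s := s) (by linarith) (by linarith)
  have h5 : ‖s - 1‖ ≤ |s.im| + 3 := by
    refine (Complex.norm_le_abs_re_add_abs_im _).trans ?_
    simp only [sub_re, one_re, sub_im, one_im, sub_zero]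
    have : |s.re - 1| ≤ 3 := by rw [abs_le]; constructor <;> linarith
    linarith
  have ht : (0 : ℝ) ≤ |s.im| := abs_nonneg _
  rw [deriv_zeta₁]
  refine (norm_add_le _ _).trans ?_
  rw [norm_mul]
  have h6 : ‖s - 1‖ * ‖deriv riemannZeta₀ s‖ ≤ (|s.im| + 3) * (16 * 24 * lg 1 s.im ^ 2) := by
    gcongr
  have h7 : lg 1 s.im ≤ (|s.im| + 3) * lg 1 s.im ^ 2 := by nlinarith
  linarith

lemma norm_zeta₁_horizontal (y : ℝ) {x : ℝ} (hx0 : 0 < x) (hx1 : x ≤ 1) :
    ‖riemannZeta₁ (1 + x + I * y)‖ ≤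
      ‖riemannZeta₁ (1 + I * y)‖ + 408 * (|y| + 3) * lg 1 y ^ 2 * x := by
  have hl := lg_pos (le_refl (1 : ℝ)) y
  have hconv : Convex ℝ {w : ℂ | w.im = y ∧ 1 ≤ w.re ∧ w.re ≤ 2} := by
    intro a ha b hb u v hu hv huv
    refine ⟨?_, ?_, ?_⟩
    · simp only [add_im, smul_im, ha.1, hb.1, smul_eq_mul]
      rw [← add_mul, huv, one_mul]
    · simp only [add_re, smul_re, smul_eq_mul]
      nlinarith [ha.2.1, hb.2.1]
    · simp only [add_re, smul_re, smul_eq_mul]
      nlinarith [ha.2.2, hb.2.2]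
  have h := hconv.norm_image_sub_le_of_norm_deriv_le (f := riemannZeta₁)
    (C := 408 * (|y| + 3) * lg 1 y ^ 2) (x := 1 + I * y) (y := 1 + x + I * y)
    (fun w _ => differentiable_riemannZeta₁ w) ?_ ?_ ?_
  · have h1 : (1 + x + I * y : ℂ) - (1 + I * y) = (x : ℂ) := by ring
    rw [h1, Complex.norm_real, Real.norm_of_nonneg hx0.le] at h
    have h2 := norm_add_le (riemannZeta₁ (1 + x + I * y) -
      riemannZeta₁ (1 + I * y)) (riemannZeta₁ (1 + I * y))
    rw [sub_add_cancel] at h2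
    linarith
  · intro w hw
    have h3 : 0 ≤ 1 / (8 * lg 1 y) := by positivity
    have := norm_deriv_zeta₁_le (s := w) (by rw [hw.1]; linarith [hw.2.1]) hw.2.2
    rwa [hw.1] at this
  · simp
  · simp; constructor <;> linarith

theorem zeta₁_lower : ∃ K : ℝ, 1 ≤ K ∧ ∀ y : ℝ, (|y| + 3) / (K * lg 1 y ^ 7) ≤
      ‖riemannZeta₁ (1 + I * y)‖ := by
  obtain ⟨c, hc, hcb⟩ := zeta₁_rect
  set K2 : ℝ := 32 * 49 ^ 3 * 1632 ^ 3 * 49 with hK2
  refine ⟨4 * K2 + 4 / c, ?_, fun y => ?_⟩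
  · have : 0 < 4 / c := by positivity
    rw [hK2]
    norm_num
    linarith
  have hK2pos : 0 < K2 := by rw [hK2]; norm_num
  have hl := one_le_lg (le_refl (1 : ℝ)) y
  have hl2 : 1 ≤ lg 1 y ^ 2 := one_le_pow₀ hl
  have hl7 : 1 ≤ lg 1 y ^ 7 := one_le_pow₀ hl
  have ht : (0 : ℝ) ≤ |y| := abs_nonneg _
  rcases le_total |y| 1 with hy | hy
  · have h1 : c ≤ ‖riemannZeta₁ (1 + I * y)‖ := by
      apply hcb
      have := abs_le.1 hy
      simp [rect, this.1, this.2]
    refine le_trans ?_ h1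
    rw [div_le_iff₀ (by positivity)]
    have h2 : c * ((4 * K2 + 4 / c) * lg 1 y ^ 7) = (4 * K2 * c + 4) * lg 1 y ^ 7 := by
      field_simp
    rw [h2]
    have h3 : 0 < 4 * K2 * c := by positivity
    nlinarith
  · have hy0 : 0 < |y| := by linarith
    have hyne : y ≠ 0 := abs_pos.1 hy0
    have h341 : ∀ x : ℝ, 0 < x → x ≤ 1 → x ^ 3 ≤ 49 ^ 3 * ‖riemannZeta (1 + x + I * y)‖ ^ 4 *
        ‖riemannZeta (1 + x + 2 * I * y)‖ := by
      intro x hx0 hx1
      have := three_four_one (1 : DirichletCharacter ℂ 1) y hx0 hx1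
      rwa [DirichletCharacter.LFunction_modOne_eq, DirichletCharacter.LFunction_modOne_eq] at this
    have h := abs341 (a := ‖riemannZeta₁ (1 + I * y)‖ / |y|) (by positivity)
      (C3 := 49 ^ 3) (by norm_num) (D := 1632 * lg 1 y ^ 2) (by linarith) (P := 49 * lg 1 y)
      (by linarith) (fun x hx0 hx1 => ⟨‖riemannZeta₁ (1 + x + I * y)‖ / |y|, by positivity, ?_, ?_⟩)
    · have h1 : 1 / (K2 * lg 1 y ^ 7) ≤ ‖riemannZeta₁ (1 + I * y)‖ / |y| := by
        refine le_trans (le_of_eq ?_) h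
        rw [hK2]
        congr 1
        ring
      rw [div_le_div_iff₀ (by positivity) hy0, one_mul] at h1
      rw [div_le_iff₀ (by positivity)]
      have h2 : 0 < 4 / c := by positivity
      have h3 : 0 ≤ ‖riemannZeta₁ (1 + I * y)‖ * (4 / c * lg 1 y ^ 7) := by positivity
      nlinarith
    · have h1 := norm_zeta₁_horizontal y hx0 hx1
      rw [div_add' _ _ _ hy0.ne']
      gcongr
      refine h1.trans ?_
      have h2 : 408 * (|y| + 3) ≤ 1632 * |y| := by linarith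
      have h3 : 408 * (|y| + 3) * (lg 1 y ^ 2 * x) ≤ 1632 * |y| * (lg 1 y ^ 2 * x) :=
        mul_le_mul_of_nonneg_right h2 (by positivity)
      linarith
    · refine (h341 x hx0 hx1).trans ?_
      have him : (1 + x + 2 * I * y : ℂ).im = 2 * y := by simp
      have hre : (1 + x + 2 * I * y : ℂ).re = 1 + x := by simp
      have h1 := norm_zeta_le_of_im (s := 1 + x + 2 * I * y) (by rw [hre]; linarith)
        (by rw [hre]; linarith) (by rw [him]; simpa using hyne)
      rw [him] at h1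
      have h2 : 1 / |2 * y| ≤ 1 := by
        rw [abs_mul, abs_two, div_le_one (by positivity)]
        linarith
      have h3 := lg_two_mul_le (le_refl (1 : ℝ)) y
      have h4 : ‖riemannZeta (1 + x + 2 * I * y)‖ ≤ 49 * lg 1 y := by linarith
      have hne : (1 + x + I * y : ℂ) ≠ 1 := by
        intro h
        have := congrArg Complex.im h
        simp at this
        exact hyne this
      have h5 : ‖riemannZeta (1 + x + I * y)‖ ≤ ‖riemannZeta₁ (1 + x + I * y)‖ / |y| := by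
        rw [riemannZeta_eq_inv_sub_mul hne, norm_mul, norm_inv, inv_mul_eq_div]
        apply div_le_div_of_nonneg_left (norm_nonneg _) hy0
        have := Complex.abs_im_le_norm ((1 + x + I * y : ℂ) - 1)
        simpa using this
      gcongr

end Pool.Agent.SW
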